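import Mathlib

/-! Number of the translates of a point high in the strip, for `Γ₀(N)`. -/

namespace Pool.Agent.Helper78.LS

open UpperHalfPlane CongruenceSubgroup
open scoped MatrixGroups

noncomputable section

/-- one of `±γ` for `γ` in `Γ₀(N)` -/
def Hf (N : ℕ) : Set SL(2, ℤ) := {γ | γ ∈ Gamma0 N ∧ (0 < γ 1 0 ∨ (γ 1 0 = 0 ∧ γ 1 1 = 1))}

/-- the strip `0 ≤ Re z < 1` -/
def St : Set ℍ := {z | 0 ≤ z.re ∧ z.re < 1}

/-- the part of the strip above height `Y` -/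
def Ey (Y : ℝ) : Set ℍ := {z | z ∈ St ∧ Y ≤ z.im}

/-- the elements which bring `z` into the strip above height `Y` -/
def Aset (N : ℕ) (z : ℍ) (Y : ℝ) : Set SL(2, ℤ) := {γ | γ ∈ Hf N ∧ γ • z ∈ Ey Y}

lemma det_eq (γ : SL(2, ℤ)) : γ 0 0 * γ 1 1 - γ 0 1 * γ 1 0 = 1 := by
  have h := γ.2
  rw [Matrix.det_fin_two] at h
  exact h

lemma exists_T_zpow {γ δ : SL(2, ℤ)} (h0 : γ 1 0 = δ 1 0) (h1 : γ 1 1 = δ 1 1) :
    ∃ n : ℤ, δ = ModularGroup.T ^ n * γ := by
  refine ⟨δ 0 1 * γ 0 0 - δ 0 0 * γ 0 1, ?_⟩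
  have hg := det_eq γ
  have hd := det_eq δ
  rw [← h0, ← h1] at hd
  ext i j
  rw [Matrix.SpecialLinearGroup.coe_mul, ModularGroup.coe_T_zpow]
  fin_cases i <;> fin_cases j <;> simp [Matrix.mul_apply, Fin.sum_univ_two]
  · linear_combination (γ 0 0) * hd - (δ 0 0) * hg
  · linear_combination (γ 0 1) * hd - (δ 0 1) * hg
  · exact h0.symm
  · exact h1.symm

lemma eq_of_row {z : ℍ} {γ δ : SL(2, ℤ)} (h0 : γ 1 0 = δ 1 0) (h1 : γ 1 1 = δ 1 1)
    (hγ : γ • z ∈ St) (hδ : δ • z ∈ St) : γ = δ := by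
  obtain ⟨n, hn⟩ := exists_T_zpow h0 h1
  rw [hn, mul_smul] at hδ
  have h2 : (ModularGroup.T ^ n • (γ • z)).re = n + (γ • z).re := by
    rw [ModularGroup.re_T_zpow_smul]; ring
  obtain ⟨a1, a2⟩ := hγ
  obtain ⟨b1, b2⟩ := hδ
  rw [h2] at b1 b2
  have h3 : (n : ℝ) < 1 := by linarith
  have h4 : (-1 : ℝ) < n := by linarith
  have h5 : n < 1 := by exact_mod_cast h3
  have h6 : -1 < n := by exact_mod_cast h4
  have h7 : n = 0 := by omega
  rw [hn, h7, zpow_zero, one_mul]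

/-- the sign -/
def nrm (N : ℕ) (g : SL(2, ℤ)) : SL(2, ℤ) := by
  classical exact if g ∈ Hf N then g else -g

lemma neg_apply (g : SL(2, ℤ)) (i j : Fin 2) : (-g) i j = -(g i j) := by
  rw [Matrix.SpecialLinearGroup.coe_neg]
  rfl

lemma neg_mem {N : ℕ} {g : SL(2, ℤ)} (hg : g ∈ Gamma0 N) : -g ∈ Gamma0 N := by
  rw [Gamma0_mem] at hg ⊢
  rw [neg_apply]
  push_cast
  rw [hg, neg_zero]

lemma nrm_mem {N : ℕ} {g : SL(2, ℤ)} (hg : g ∈ Gamma0 N) : nrm N g ∈ Hf N := by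
  unfold nrm
  split_ifs with h
  · exact h
  · refine ⟨neg_mem hg, ?_⟩
    rw [neg_apply, neg_apply]
    have h1 : ¬(0 < g 1 0 ∨ (g 1 0 = 0 ∧ g 1 1 = 1)) := fun h2 => h ⟨hg, h2⟩
    push Not at h1
    obtain ⟨h2, h3⟩ := h1
    rcases h2.lt_or_eq with h4 | h4
    · left; omega
    · right
      refine ⟨by omega, ?_⟩
      have h5 := h3 h4
      have h6 := det_eq g
      rw [h4, mul_zero, sub_zero] at h6
      rcases Int.isUnit_iff.1 (IsUnit.of_mul_eq_one_right _ h6) with h7 | h7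
      · exact absurd h7 h5
      · rw [h7]; rfl

lemma nrm_smul {N : ℕ} (g : SL(2, ℤ)) (z : ℍ) : nrm N g • z = g • z := by
  unfold nrm
  split_ifs with h
  · rfl
  · exact ModularGroup.SL_neg_smul g z

lemma nrm_eq (N : ℕ) (g : SL(2, ℤ)) : nrm N g = g ∨ nrm N g = -g := by
  unfold nrm
  split_ifs with h
  · exact Or.inl rfl
  · exact Or.inr rfl

lemma not_neg {N : ℕ} {g : SL(2, ℤ)} (hg : g ∈ Hf N) (hn : -g ∈ Hf N) : False := by
  obtain ⟨-, h1⟩ := hg
  obtain ⟨-, h2⟩ := hn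
  rw [neg_apply, neg_apply] at h2
  omega

lemma im_eq (γ : SL(2, ℤ)) (z : ℍ) :
    (γ • z).im = z.im / (((γ 1 0 : ℝ) * z.re + γ 1 1) ^ 2 + ((γ 1 0 : ℝ) * z.im) ^ 2) := by
  rw [ModularGroup.im_smul_eq_div_normSq, ModularGroup.denom_apply, Complex.normSq_apply]
  congr 1
  simp
  ring

lemma pos_den (γ : SL(2, ℤ)) (z : ℍ) :
    0 < ((γ 1 0 : ℝ) * z.re + γ 1 1) ^ 2 + ((γ 1 0 : ℝ) * z.im) ^ 2 := by
  have h := im_eq γ z
  have h1 := (γ • z).im_pos
  have h2 := z.im_pos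
  by_contra h3
  push Not at h3
  have h4 : z.im / (((γ 1 0 : ℝ) * z.re + γ 1 1) ^ 2 + ((γ 1 0 : ℝ) * z.im) ^ 2) ≤ 0 :=
    div_nonpos_of_nonneg_of_nonpos h2.le h3
  linarith

/-- the count when the point itself is high -/
lemma count_high {N : ℕ} (hN : 0 < N) {z : ℍ} {Y : ℝ} (hY : 0 < Y) (hz : Y ≤ z.im) :
    (Aset N z Y).Finite ∧ ((Aset N z Y).ncard : ℝ) ≤ 1 + 3 / (N * Y) := by
  have hN0 : (0:ℝ) < N := by exact_mod_cast hN
  have hy0 : 0 < z.im := z.im_pos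
  obtain ⟨D, hD⟩ : ∃ D : ℝ, D = √(z.im / Y) := ⟨_, rfl⟩
  obtain ⟨C, hC⟩ : ∃ C : ℕ, C = ⌊1 / (N * √(z.im * Y))⌋₊ := ⟨_, rfl⟩
  have hD1 : 1 ≤ D := by
    rw [hD]
    exact Real.one_le_sqrt.2 ((one_le_div hY).2 hz)
  have hsq : 0 < √(z.im * Y) := Real.sqrt_pos.2 (by positivity)
  obtain ⟨S, hS⟩ : ∃ S : Finset (ℤ × ℤ), S = insert ((0:ℤ), (1:ℤ)) ((Finset.Icc 1 C).biUnion fun k : ℕ =>
    (Finset.Icc ⌈-D - N * k * z.re⌉ ⌊D - N * k * z.re⌋).image fun d : ℤ => (((N * k : ℕ) : ℤ), d)) := ⟨_, rfl⟩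
  have hmaps : ∀ γ ∈ Aset N z Y, ((γ 1 0, γ 1 1) : ℤ × ℤ) ∈ S := by
    rintro γ ⟨⟨hγ0, hγ1⟩, ⟨-, hγ2⟩⟩
    rw [hS]
    rcases hγ1 with hc | ⟨hc, hd⟩
    · refine Finset.mem_insert_of_mem (Finset.mem_biUnion.2 ?_)
      rw [Gamma0_mem, ZMod.intCast_zmod_eq_zero_iff_dvd] at hγ0
      obtain ⟨k, hk⟩ := hγ0
      have hk0 : 0 < k := by
        by_contra h
        push Not at h
        have : (N:ℤ) * k ≤ 0 := mul_nonpos_of_nonneg_of_nonpos (by positivity) h
        omega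
      obtain ⟨m, hm⟩ := Int.eq_ofNat_of_zero_le hk0.le
      have hden := pos_den γ z
      rw [im_eq, le_div_iff₀ hden] at hγ2
      have hcr : (γ 1 0 : ℝ) = N * m := by rw [hk, hm]; push_cast; rfl
      have h1 : ((γ 1 0 : ℝ) * z.re + γ 1 1) ^ 2 + ((γ 1 0 : ℝ) * z.im) ^ 2 ≤ z.im / Y := by
        rw [le_div_iff₀ hY]; linarith
      refine ⟨m, Finset.mem_Icc.2 ⟨by omega, ?_⟩, Finset.mem_image.2 ⟨γ 1 1, Finset.mem_Icc.2 ⟨?_, ?_⟩, ?_⟩⟩
      · rw [hC]
        refine Nat.le_floor ?_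
        rw [le_div_iff₀ (by positivity)]
        have h2 : ((N * m : ℝ) * z.im) ^ 2 ≤ z.im / Y := by
          rw [← hcr]
          nlinarith [sq_nonneg ((γ 1 0 : ℝ) * z.re + γ 1 1)]
        have h3 : ((m:ℝ) * (N * √(z.im * Y))) ^ 2 ≤ 1 := by
          have e1 : ((m:ℝ) * (N * √(z.im * Y))) ^ 2 = (N * m) ^ 2 * (z.im * Y) := by
            rw [mul_pow, mul_pow, Real.sq_sqrt (by positivity)]; ring
          rw [e1]
          rw [le_div_iff₀ hY] at h2
          have e2 : ((N * m : ℝ) * z.im) ^ 2 * Y = ((N * m : ℝ) ^ 2 * (z.im * Y)) * z.im := by ring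
          rw [e2] at h2
          by_contra hcon
          push Not at hcon
          nlinarith
        nlinarith [h3, sq_nonneg ((m:ℝ) * (N * √(z.im * Y)) - 1), (by positivity : 0 ≤ (m:ℝ) * (N * √(z.im * Y)))]
      · rw [Int.ceil_le]
        have h2 : |(γ 1 0 : ℝ) * z.re + γ 1 1| ≤ D := by
          rw [hD]
          refine Real.abs_le_sqrt ?_
          nlinarith [sq_nonneg ((γ 1 0 : ℝ) * z.im)]
        rw [hcr, abs_le] at h2
        linarith [h2.1]
      · rw [Int.le_floor]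
        have h2 : |(γ 1 0 : ℝ) * z.re + γ 1 1| ≤ D := by
          rw [hD]
          refine Real.abs_le_sqrt ?_
          nlinarith [sq_nonneg ((γ 1 0 : ℝ) * z.im)]
        rw [hcr, abs_le] at h2
        linarith [h2.2]
      · ext
        · push_cast
          show (N:ℤ) * m = γ 1 0
          rw [hk, hm]
        · rfl
    · rw [hc, hd]
      exact Finset.mem_insert_self _ _
  have hinj : Set.InjOn (fun γ : SL(2, ℤ) => ((γ 1 0, γ 1 1) : ℤ × ℤ)) (Aset N z Y) := by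
    intro γ hγ δ hδ h
    simp only [Prod.mk.injEq] at h
    exact eq_of_row h.1 h.2 hγ.2.1 hδ.2.1
  have hfin : (Aset N z Y).Finite := by
    refine Set.Finite.of_finite_image (S.finite_toSet.subset ?_) hinj
    rintro _ ⟨γ, hγ, rfl⟩
    exact hmaps γ hγ
  refine ⟨hfin, ?_⟩
  have hcard : (Aset N z Y).ncard ≤ S.card := by
    rw [← Set.ncard_coe_finset]
    exact Set.ncard_le_ncard_of_injOn _ hmaps hinj S.finite_toSet
  have hSc : (S.card : ℝ) ≤ 1 + C * (2 * D + 1) := by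
    have h1 : S.card ≤ (∑ k ∈ Finset.Icc 1 C, (Finset.Icc ⌈-D - N * k * z.re⌉ ⌊D - N * k * z.re⌋).card) + 1 := by
      rw [hS]
      refine (Finset.card_insert_le _ _).trans (Nat.add_le_add_right ?_ 1)
      refine Finset.card_biUnion_le.trans (Finset.sum_le_sum fun k _ => Finset.card_image_le)
    have h2 : ∀ k ∈ Finset.Icc 1 C, ((Finset.Icc ⌈-D - N * k * z.re⌉ ⌊D - N * k * z.re⌋).card : ℝ) ≤ 2 * D + 1 := by
      intro k _
      rw [Int.card_Icc]
      have h3 : ((⌊D - N * k * z.re⌋ + 1 - ⌈-D - N * k * z.re⌉ : ℤ) : ℝ) ≤ 2 * D + 1 := by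
        push_cast
        have := Int.floor_le (D - N * k * z.re)
        have := Int.le_ceil (-D - N * k * z.re)
        linarith
      have h4 : (((⌊D - N * k * z.re⌋ + 1 - ⌈-D - N * k * z.re⌉).toNat : ℤ) : ℝ) ≤ 2 * D + 1 := by
        rw [Int.toNat_eq_max, Int.cast_max]
        refine max_le h3 ?_
        push_cast
        linarith
      exact_mod_cast h4
    have h5 : (S.card : ℝ) ≤ (∑ k ∈ Finset.Icc 1 C, ((Finset.Icc ⌈-D - N * k * z.re⌉ ⌊D - N * k * z.re⌋).card : ℝ)) + 1 := by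
      exact_mod_cast h1
    have h6 := Finset.sum_le_sum h2
    rw [Finset.sum_const, Nat.card_Icc, Nat.add_sub_cancel, nsmul_eq_mul] at h6
    linarith
  have hCle : (C:ℝ) ≤ 1 / (N * √(z.im * Y)) := by
    rw [hC]; exact Nat.floor_le (by positivity)
  have h7 : (C:ℝ) * (2 * D + 1) ≤ 3 / (N * Y) := by
    have h8 : (C:ℝ) * (2 * D + 1) ≤ (1 / (N * √(z.im * Y))) * (3 * D) :=
      mul_le_mul hCle (by linarith) (by linarith) (by positivity)
    refine h8.trans (le_of_eq ?_)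
    have h9 : D = √(z.im * Y) / Y := by
      rw [hD, Real.sqrt_eq_iff_mul_self_eq (by positivity) (by positivity)]
      rw [div_mul_div_comm, Real.mul_self_sqrt (by positivity)]
      field_simp
    rw [h9]
    field_simp
  have h10 : ((Aset N z Y).ncard : ℝ) ≤ S.card := by exact_mod_cast hcard
  linarith

/-- the count for all points -/
lemma count_all {N : ℕ} (hN : 0 < N) (z : ℍ) {Y : ℝ} (hY : 0 < Y) :
    (Aset N z Y).Finite ∧ ((Aset N z Y).ncard : ℝ) ≤ 1 + 3 / (N * Y) := by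
  rcases (Aset N z Y).eq_empty_or_nonempty with h | ⟨γ0, hγ0⟩
  · rw [h]
    refine ⟨Set.finite_empty, ?_⟩
    rw [Set.ncard_empty]
    have : (0:ℝ) < N := by exact_mod_cast hN
    push_cast
    positivity
  · obtain ⟨hf, hc⟩ := count_high hN hY hγ0.2.2
    have hmaps : ∀ γ ∈ Aset N z Y, nrm N (γ * γ0⁻¹) ∈ Aset N (γ0 • z) Y := by
      intro γ hγ
      refine ⟨nrm_mem (mul_mem hγ.1.1 (inv_mem hγ0.1.1)), ?_⟩
      rw [nrm_smul, mul_smul, inv_smul_smul]
      exact hγ.2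
    have hinj : Set.InjOn (fun γ => nrm N (γ * γ0⁻¹)) (Aset N z Y) := by
      intro γ hγ δ hδ h
      simp only at h
      have h1 : γ = δ ∨ γ = -δ := by
        rcases nrm_eq N (γ * γ0⁻¹) with h2 | h2 <;> rcases nrm_eq N (δ * γ0⁻¹) with h3 | h3 <;>
          rw [h2, h3] at h
        · exact Or.inl (mul_right_cancel h)
        · right
          rw [← neg_mul] at h
          exact mul_right_cancel h
        · right
          rw [← h, ← neg_mul] at h3
          have h4 : -γ * γ0⁻¹ = δ * γ0⁻¹ := by rw [neg_mul]; exact h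
          have h5 := mul_right_cancel h4
          rw [← h5, neg_neg]
        · left
          have h4 : -γ * γ0⁻¹ = -δ * γ0⁻¹ := by rw [neg_mul, neg_mul]; exact h
          exact neg_injective (mul_right_cancel h4)
      rcases h1 with h1 | h1
      · exact h1
      · exfalso
        rw [h1] at hγ
        exact not_neg hδ.1 hγ.1
    have hfin : (Aset N z Y).Finite := by
      refine Set.Finite.of_finite_image (hf.subset ?_) hinj
      rintro _ ⟨γ, hγ, rfl⟩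
      exact hmaps γ hγ
    refine ⟨hfin, ?_⟩
    have h1 : (Aset N z Y).ncard ≤ (Aset N (γ0 • z) Y).ncard :=
      Set.ncard_le_ncard_of_injOn _ hmaps hinj hf
    have h2 : ((Aset N z Y).ncard : ℝ) ≤ (Aset N (γ0 • z) Y).ncard := by exact_mod_cast h1
    exact h2.trans hc

/-- above height `1 / N` there is at most one translate -/
lemma count_one {N : ℕ} (hN : 0 < N) (z : ℍ) {Y : ℝ} (hY : 1 < N * Y) :
    (Aset N z Y).Finite ∧ ((Aset N z Y).ncard : ℝ) ≤ 1 := by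
  have hN0 : (0:ℝ) < N := by exact_mod_cast hN
  have hY0 : 0 < Y := by
    by_contra h
    push Not at h
    nlinarith
  obtain ⟨hfin, -⟩ := count_all hN z hY0
  refine ⟨hfin, ?_⟩
  have hcard : (Aset N z Y).ncard ≤ 1 := by
    rw [Set.ncard_le_one hfin]
    intro γ hγ δ hδ
    -- the element `δ γ⁻¹` moves `γ z` to `δ z`, both of height at least `Y`
    have hg := inv_mem hγ.1.1
    have key : (δ * γ⁻¹) 1 0 = 0 := by
      by_contra hc
      have hmem := mul_mem hδ.1.1 hg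
      rw [Gamma0_mem, ZMod.intCast_zmod_eq_zero_iff_dvd] at hmem
      obtain ⟨k, hk⟩ := hmem
      have hk0 : k ≠ 0 := by
        rintro rfl
        exact hc (by rw [hk, mul_zero])
      have h1 := im_eq (δ * γ⁻¹) (γ • z)
      rw [mul_smul, inv_smul_smul] at h1
      have hy1 : Y ≤ (γ • z).im := hγ.2.2
      have hy2 : Y ≤ (δ • z).im := hδ.2.2
      have hden := pos_den (δ * γ⁻¹) (γ • z)
      rw [h1, le_div_iff₀ hden] at hy2
      have hk1 : (1:ℝ) ≤ (k:ℝ) ^ 2 := by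
        have : 1 ≤ k ^ 2 := by
          have := sq_nonneg k
          have h3 : k ^ 2 ≠ 0 := pow_ne_zero 2 hk0
          omega
        exact_mod_cast this
      have h2 : (((δ * γ⁻¹) 1 0 : ℤ) : ℝ) = N * k := by rw [hk]; push_cast; rfl
      set y := (γ • z).im with hy
      have hy0 : 0 < y := lt_of_lt_of_le hY0 hy1
      have h3 : (N:ℝ) ^ 2 * y ^ 2 ≤ ((((δ * γ⁻¹) 1 0 : ℤ) : ℝ) * y) ^ 2 := by
        rw [h2]
        have : ((N * k : ℝ) * y) ^ 2 = (N:ℝ) ^ 2 * y ^ 2 * (k:ℝ) ^ 2 := by ring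
        rw [this]
        exact le_mul_of_one_le_right (by positivity) hk1
      have h4 : Y * ((N:ℝ) ^ 2 * y ^ 2) ≤ y := by
        refine le_trans ?_ hy2
        refine mul_le_mul_of_nonneg_left ?_ hY0.le
        nlinarith [sq_nonneg ((((δ * γ⁻¹) 1 0 : ℤ) : ℝ) * (γ • z).re + (((δ * γ⁻¹) 1 1 : ℤ) : ℝ))]
      have h5 : Y * (N:ℝ) ^ 2 * y ≤ 1 := by
        have : (Y * (N:ℝ) ^ 2 * y) * y ≤ 1 * y := by nlinarith
        exact le_of_mul_le_mul_right this hy0
      have h6 : Y * (N:ℝ) ^ 2 * Y ≤ 1 := by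
        have := mul_le_mul_of_nonneg_left hy1 (by positivity : 0 ≤ Y * (N:ℝ) ^ 2)
        linarith
      nlinarith
    -- so the bottom rows agree up to sign
    obtain ⟨g, hgdef⟩ : ∃ g : SL(2, ℤ), g = δ * γ⁻¹ := ⟨_, rfl⟩
    rw [← hgdef] at key
    have hδg : δ = g * γ := by rw [hgdef, inv_mul_cancel_right]
    have e1 : δ 1 0 = g 1 1 * γ 1 0 := by
      rw [hδg, Matrix.SpecialLinearGroup.coe_mul, Matrix.mul_apply, Fin.sum_univ_two, key]
      ring
    have e2 : δ 1 1 = g 1 1 * γ 1 1 := by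
      rw [hδg, Matrix.SpecialLinearGroup.coe_mul, Matrix.mul_apply, Fin.sum_univ_two, key]
      ring
    have hdg := det_eq g
    rw [key, mul_zero, sub_zero] at hdg
    rcases Int.isUnit_iff.1 (IsUnit.of_mul_eq_one_right _ hdg) with h7 | h7
    · rw [h7, one_mul] at e1 e2
      exact eq_of_row e1.symm e2.symm hγ.2.1 hδ.2.1
    · exfalso
      rw [h7] at e1 e2
      have a1 := hγ.1.2
      have a2 := hδ.1.2
      omega
  exact_mod_cast hcard

end

end Pool.Agent.Helper78.LS
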