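import Pool.Agent.Helper78.LS.Count
import Pool.Graph.R_seed8.W165.RS.Meas
import Pool.Graph.R_seed8.W165.RS.Cosets

/-! Existence of strict measurable fundamental domains; the unfolding inequality. -/

namespace Pool.Agent.Helper78.LS

open UpperHalfPlane CongruenceSubgroup MeasureTheory
open scoped MatrixGroups ENNReal
open Pool.Agent.W165.RS (Psi phi unfold measurableSet_fd Psi_ne_zero Psi_ne_top volume_fd_ne_top)

noncomputable section

lemma meas_smul (γ : SL(2, ℤ)) : Measurable (fun z : ℍ => γ • z) :=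
  Pool.Agent.W165.RS.measurable_smul_SL γ

lemma meas_im : Measurable (fun z : ℍ => z.im) := UpperHalfPlane.continuous_im.measurable

lemma meas_re : Measurable (fun z : ℍ => z.re) := UpperHalfPlane.continuous_re.measurable

lemma measSet_St : MeasurableSet St :=
  (measurableSet_le measurable_const meas_re).inter (measurableSet_lt meas_re measurable_const)

lemma measSet_Ey (Y : ℝ) : MeasurableSet (Ey Y) :=
  measSet_St.inter (measurableSet_le measurable_const meas_im)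

/-- a strict fundamental domain -/
def F0 (N : ℕ) : Set ℍ := {z | z ∈ St ∧ ∀ γ : SL(2, ℤ), γ ∈ Gamma0 N → γ • z ∈ St →
  ((γ • z).im < z.im ∨ ((γ • z).im = z.im ∧ z.re ≤ (γ • z).re))}

lemma measSet_F0 (N : ℕ) : MeasurableSet (F0 N) := by
  have : F0 N = St ∩ ⋂ γ : SL(2, ℤ), {z | γ ∈ Gamma0 N → γ • z ∈ St →
    ((γ • z).im < z.im ∨ ((γ • z).im = z.im ∧ z.re ≤ (γ • z).re))} := by
    ext z
    simp only [F0, Set.mem_ofPred_eq, Set.mem_inter_iff, Set.mem_iInter]
  rw [this]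
  refine measSet_St.inter (MeasurableSet.iInter fun γ => ?_)
  have h1 : MeasurableSet {z : ℍ | γ • z ∈ St} := meas_smul γ measSet_St
  have h2 : MeasurableSet {z : ℍ | (γ • z).im < z.im} := measurableSet_lt (meas_im.comp (meas_smul γ)) meas_im
  have h3 : MeasurableSet {z : ℍ | (γ • z).im = z.im} := measurableSet_eq_fun (meas_im.comp (meas_smul γ)) meas_im
  have h4 : MeasurableSet {z : ℍ | z.re ≤ (γ • z).re} := measurableSet_le meas_re (meas_re.comp (meas_smul γ))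
  by_cases hγ : γ ∈ Gamma0 N
  · have : {z : ℍ | γ ∈ Gamma0 N → γ • z ∈ St →
      ((γ • z).im < z.im ∨ ((γ • z).im = z.im ∧ z.re ≤ (γ • z).re))} =
      {z : ℍ | γ • z ∈ St}ᶜ ∪ ({z : ℍ | (γ • z).im < z.im} ∪ ({z : ℍ | (γ • z).im = z.im} ∩ {z : ℍ | z.re ≤ (γ • z).re})) := by
      ext z
      simp only [Set.mem_ofPred_eq, Set.mem_union, Set.mem_compl_iff, Set.mem_inter_iff]
      tauto
    rw [this]
    exact h1.compl.union (h2.union (h3.inter h4))
  · convert MeasurableSet.univ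
    ext z
    simp [hγ]

lemma strict_F0 (N : ℕ) : ∀ γ ∈ Gamma0 N, ∀ z ∈ F0 N, γ • z ∈ F0 N → γ • z = z := by
  rintro γ hγ z ⟨hz1, hz2⟩ ⟨hw1, hw2⟩
  have h1 := hz2 γ hγ hw1
  have h2 := hw2 γ⁻¹ (inv_mem hγ) (by rw [inv_smul_smul]; exact hz1)
  rw [inv_smul_smul] at h2
  have h3 : (γ • z).im = z.im ∧ (γ • z).re = z.re := by
    rcases h1 with h1 | ⟨h1, h1'⟩ <;> rcases h2 with h2 | ⟨h2, h2'⟩
    · exact absurd h1 (not_lt.2 h2.le)
    · exact absurd h2 (by intro h; linarith)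
    · exact absurd h2 (by intro h; linarith)
    · exact ⟨h1, le_antisymm h2' h1'⟩
  exact UpperHalfPlane.ext (Complex.ext h3.2 h3.1)

lemma cover_F0 {N : ℕ} (hN : 0 < N) (z : ℍ) : ∃ γ ∈ Gamma0 N, γ • z ∈ F0 N := by
  obtain ⟨hf, -⟩ := count_all hN z z.im_pos
  -- the set is nonempty
  have hne : hf.toFinset.Nonempty := by
    have hT : ModularGroup.T ^ (-⌊z.re⌋) ∈ Gamma0 N := by
      refine Subgroup.zpow_mem _ ?_ _
      rw [Gamma0_mem]
      simp [ModularGroup.T]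
    refine ⟨nrm N (ModularGroup.T ^ (-⌊z.re⌋)), hf.mem_toFinset.2 ⟨nrm_mem hT, ?_⟩⟩
    rw [nrm_smul]
    refine ⟨⟨?_, ?_⟩, ?_⟩
    · rw [ModularGroup.re_T_zpow_smul]
      push_cast
      have := Int.floor_le z.re
      linarith
    · rw [ModularGroup.re_T_zpow_smul]
      push_cast
      have := Int.lt_floor_add_one z.re
      linarith
    · rw [ModularGroup.im_T_zpow_smul]
  obtain ⟨γ, hγ, hmax⟩ := Finset.exists_max_image hf.toFinset
    (fun γ : SL(2, ℤ) => toLex ((γ • z).im, -(γ • z).re)) hne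
  rw [hf.mem_toFinset] at hγ
  refine ⟨γ, hγ.1.1, hγ.2.1, fun δ hδ hδS => ?_⟩
  by_cases hlt : (δ • γ • z).im < z.im
  · left
    exact lt_of_lt_of_le hlt hγ.2.2
  · push Not at hlt
    have hmem : nrm N (δ * γ) ∈ Aset N z z.im := by
      refine ⟨nrm_mem (mul_mem hδ hγ.1.1), ?_⟩
      rw [nrm_smul, mul_smul]
      exact ⟨hδS, hlt⟩
    have h1 := hmax _ (hf.mem_toFinset.2 hmem)
    rw [nrm_smul, mul_smul, Prod.Lex.toLex_le_toLex] at h1
    rcases h1 with h1 | ⟨h1, h2⟩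
    · exact Or.inl h1
    · exact Or.inr ⟨h1, by simpa using h2⟩

/-- the unfolding inequality -/
lemma unfold_le {N : ℕ} {F : Set ℍ} (hF : MeasurableSet F)
    (hcov : ∀ z : ℍ, ∃ γ ∈ Gamma0 N, γ • z ∈ F) {h : ℍ → ℝ≥0∞} (hh : Measurable h)
    (hinv : ∀ γ ∈ Gamma0 N, ∀ z, h (γ • z) = h z) {Y M : ℝ}
    (hM : ∀ w : ℍ, (Aset N w Y).Finite ∧ ((Aset N w Y).ncard : ℝ) ≤ M) :
    ∫⁻ z in Ey Y, h z ≤ ENNReal.ofReal M * ∫⁻ z in F, h z := by
  classical
  set G : SL(2, ℤ) → ℍ → ℝ≥0∞ := fun δ z =>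
    if δ ∈ Hf N then F.indicator (fun _ => (1 : ℝ≥0∞)) (δ⁻¹ • z) * (Ey Y).indicator h z else 0 with hG
  set K : SL(2, ℤ) → ℍ → ℝ≥0∞ := fun δ w =>
    if δ ∈ Hf N then F.indicator (fun _ => (1 : ℝ≥0∞)) w * (Ey Y).indicator h (δ • w) else 0 with hK
  have hmG : ∀ δ, Measurable (G δ) := by
    intro δ
    simp only [hG]
    by_cases hδ : δ ∈ Hf N
    · simp only [if_pos hδ]
      exact ((measurable_const.indicator hF).comp (meas_smul δ⁻¹)).mul (hh.indicator (measSet_Ey Y))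
    · simp only [if_neg hδ]
      exact measurable_const
  have hmK : ∀ δ, Measurable (K δ) := by
    intro δ
    simp only [hK]
    by_cases hδ : δ ∈ Hf N
    · simp only [if_pos hδ]
      exact (measurable_const.indicator hF).mul ((hh.indicator (measSet_Ey Y)).comp (meas_smul δ))
    · simp only [if_neg hδ]
      exact measurable_const
  have h1 : ∀ z, (Ey Y).indicator h z ≤ ∑' δ : SL(2, ℤ), G δ z := by
    intro z
    obtain ⟨γ, hγ, hγF⟩ := hcov z
    refine le_trans ?_ (ENNReal.le_tsum (nrm N γ⁻¹))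
    simp only [hG]
    rw [if_pos (nrm_mem (inv_mem hγ))]
    have e1 : (nrm N γ⁻¹)⁻¹ • z = γ • z := by
      rw [inv_smul_eq_iff, nrm_smul, inv_smul_smul]
    rw [e1, Set.indicator_of_mem hγF, one_mul]
  have h2 : ∀ δ, ∫⁻ z, G δ z = ∫⁻ w, K δ w := by
    intro δ
    rw [← Pool.Agent.W165.RS.lintegral_SL δ (G δ) (hmG δ)]
    refine lintegral_congr fun w => ?_
    simp only [hG, hK, inv_smul_smul]
  have h3 : ∀ w, ∑' δ : SL(2, ℤ), K δ w ≤ ENNReal.ofReal M * F.indicator h w := by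
    intro w
    obtain ⟨hf, hc⟩ := hM w
    have e1 : ∀ δ : SL(2, ℤ), δ ∉ hf.toFinset → K δ w = 0 := by
      intro δ hδ
      simp only [hK]
      by_cases hδH : δ ∈ Hf N
      · rw [if_pos hδH, Set.indicator_of_notMem (s := Ey Y) (a := δ • w), mul_zero]
        exact fun h' => hδ (hf.mem_toFinset.2 ⟨hδH, h'⟩)
      · rw [if_neg hδH]
    rw [tsum_eq_sum e1]
    have e2 : ∀ δ ∈ hf.toFinset, K δ w = F.indicator h w := by
      intro δ hδ
      rw [hf.mem_toFinset] at hδ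
      simp only [hK]
      rw [if_pos hδ.1, Set.indicator_of_mem hδ.2, hinv δ hδ.1.1]
      by_cases hw : w ∈ F
      · rw [Set.indicator_of_mem hw, Set.indicator_of_mem hw, one_mul]
      · rw [Set.indicator_of_notMem hw, Set.indicator_of_notMem hw, zero_mul]
    rw [Finset.sum_congr rfl e2, Finset.sum_const, nsmul_eq_mul]
    refine mul_le_mul_left ?_ _
    rw [← Set.ncard_eq_toFinset_card _ hf, ← ENNReal.ofReal_natCast]
    exact ENNReal.ofReal_le_ofReal hc
  calc ∫⁻ z in Ey Y, h z = ∫⁻ z, (Ey Y).indicator h z := by rw [lintegral_indicator (measSet_Ey Y)]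
    _ ≤ ∫⁻ z, ∑' δ : SL(2, ℤ), G δ z := lintegral_mono h1
    _ = ∑' δ : SL(2, ℤ), ∫⁻ z, G δ z := lintegral_tsum fun δ => (hmG δ).aemeasurable
    _ = ∑' δ : SL(2, ℤ), ∫⁻ z, K δ z := tsum_congr h2
    _ = ∫⁻ z, ∑' δ : SL(2, ℤ), K δ z := (lintegral_tsum fun δ => (hmK δ).aemeasurable).symm
    _ ≤ ∫⁻ z, ENNReal.ofReal M * F.indicator h z := lintegral_mono h3
    _ = _ := by rw [lintegral_const_mul' _ _ ENNReal.ofReal_ne_top, lintegral_indicator hF]

/-- finite volume -/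
lemma vol_fin {N : ℕ} [NeZero N] {F : Set ℍ} (hF : MeasurableSet F)
    (hst : ∀ γ ∈ Gamma0 N, ∀ z ∈ F, γ • z ∈ F → γ • z = z) : volume F ≠ ∞ := by
  classical
  have : Fintype (SL(2, ℤ) ⧸ Gamma0 N) := Fintype.ofFinite _
  have key : ∀ z ∈ (ModularGroup.fd : Set ℍ), ∑' g : SL(2, ℤ), F.indicator (fun _ => (1 : ℝ≥0∞)) (g • z) ≤
      (Fintype.card (SL(2, ℤ) ⧸ Gamma0 N) : ℝ≥0∞) * Psi z := by
    intro z hz
    have e1 : ∀ g : SL(2, ℤ), F.indicator (fun _ => (1 : ℝ≥0∞)) (g • z) =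
        ∑ q : SL(2, ℤ) ⧸ Gamma0 N, if (QuotientGroup.mk g⁻¹ : SL(2, ℤ) ⧸ Gamma0 N) = q then
          F.indicator (fun _ => (1 : ℝ≥0∞)) (g • z) else 0 := by
      intro g
      rw [Finset.sum_ite_eq]
      simp
    rw [tsum_congr e1, Summable.tsum_finsetSum (fun _ _ => ENNReal.summable)]
    have e2 : ∀ q : SL(2, ℤ) ⧸ Gamma0 N, ∑' g : SL(2, ℤ), (if (QuotientGroup.mk g⁻¹ : SL(2, ℤ) ⧸ Gamma0 N) = q then
          F.indicator (fun _ => (1 : ℝ≥0∞)) (g • z) else 0) ≤ Psi z := by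
      intro q
      by_cases hex : ∃ g0 : SL(2, ℤ), (QuotientGroup.mk g0⁻¹ : SL(2, ℤ) ⧸ Gamma0 N) = q ∧ g0 • z ∈ F
      · obtain ⟨g0, hg0, hg0F⟩ := hex
        have e3 : Psi z = ∑' g : SL(2, ℤ), Set.indicator (ModularGroup.fd : Set ℍ) (fun _ => (1 : ℝ≥0∞)) ((g0⁻¹ * g) • z) := by
          unfold Psi
          exact ((Equiv.mulLeft g0⁻¹).tsum_eq (fun g : SL(2, ℤ) =>
            Set.indicator (ModularGroup.fd : Set ℍ) (fun _ => (1 : ℝ≥0∞)) (g • z))).symm
        rw [e3]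
        refine ENNReal.tsum_le_tsum fun g => ?_
        by_cases hg : (QuotientGroup.mk g⁻¹ : SL(2, ℤ) ⧸ Gamma0 N) = q
        · rw [if_pos hg]
          by_cases hgF : g • z ∈ F
          · have h1 : g * g0⁻¹ ∈ Gamma0 N := by
              have h2 := QuotientGroup.eq.1 (hg.trans hg0.symm)
              rwa [inv_inv] at h2
            have h2 := hst _ h1 (g0 • z) hg0F (by rw [mul_smul, inv_smul_smul]; exact hgF)
            rw [mul_smul, inv_smul_smul] at h2
            rw [Set.indicator_of_mem hgF, mul_smul, h2, inv_smul_smul, Set.indicator_of_mem hz]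
          · rw [Set.indicator_of_notMem hgF]; exact zero_le
        · rw [if_neg hg]; exact zero_le
      · push Not at hex
        rw [ENNReal.tsum_eq_zero.2]
        · exact zero_le
        · intro g
          split_ifs with hg
          · exact Set.indicator_of_notMem (hex g hg) _
          · rfl
    refine (Finset.sum_le_sum fun q _ => e2 q).trans ?_
    rw [Finset.sum_const, nsmul_eq_mul, Finset.card_univ]
  have h1 : volume F = ∫⁻ z, phi z * ∑' g : SL(2, ℤ), F.indicator (fun _ => (1 : ℝ≥0∞)) (g • z) := by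
    rw [← unfold _ (measurable_const.indicator hF), lintegral_indicator hF]
    simp
  have h2 : volume F ≤ (Fintype.card (SL(2, ℤ) ⧸ Gamma0 N) : ℝ≥0∞) * volume (ModularGroup.fd : Set ℍ) := by
    rw [h1, ← lintegral_indicator_one measurableSet_fd, ← lintegral_const_mul' _ _ (ENNReal.natCast_ne_top _)]
    refine lintegral_mono fun z => ?_
    unfold phi
    by_cases hz : z ∈ (ModularGroup.fd : Set ℍ)
    · rw [Set.indicator_of_mem hz, Set.indicator_of_mem hz]
      refine (mul_le_mul_right (key z hz) _).trans (le_of_eq ?_)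
      rw [mul_comm, mul_assoc, ENNReal.mul_inv_cancel (Psi_ne_zero z) (Psi_ne_top z)]
      rfl
    · rw [Set.indicator_of_notMem hz, Set.indicator_of_notMem hz, zero_mul, mul_zero]
  exact ne_top_of_le_ne_top (ENNReal.mul_ne_top (ENNReal.natCast_ne_top _) volume_fd_ne_top) h2

end

end Pool.Agent.Helper78.LS
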