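import Pool.Agent.Helper78.LS.Pars

/-! The large sieve inequality for one form and for families. -/

namespace Pool.Agent.Helper78.LS

open UpperHalfPlane CongruenceSubgroup MeasureTheory Set
open scoped MatrixGroups ENNReal ComplexConjugate
open Pool.Agent.Q84.HW (IsCuspForm coeff coeff_eq pt pt_im pt_cont G G_inv bounded)

noncomputable section

/-- the density of the Petersson product -/
def pd (f g : ℍ → ℂ) (z : ℍ) : ℂ := f z * conj (g z) * ((z.im ^ (3 / 2 : ℝ) : ℝ) : ℂ)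

lemma pd_self (f : ℍ → ℂ) (z : ℍ) : pd f f z = ((dens f z : ℝ) : ℂ) := by
  unfold pd dens
  rw [Complex.mul_conj, Complex.normSq_eq_norm_sq]
  push_cast
  ring

lemma pd_meas {f g : ℍ → ℂ} (hf : Continuous f) (hg : Continuous g) : Measurable (pd f g) := by
  unfold pd
  refine (hf.measurable.mul (Complex.continuous_conj.comp hg).measurable).mul ?_
  exact Complex.measurable_ofReal.comp (meas_im.pow_const _)

lemma norm_pd_le (f g : ℍ → ℂ) (z : ℍ) : ‖pd f g z‖ ≤ dens f z + dens g z := by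
  unfold pd dens
  have hy := Real.rpow_nonneg z.im_pos.le (3 / 2 : ℝ)
  rw [norm_mul, norm_mul, RCLike.norm_conj, Complex.norm_real, Real.norm_of_nonneg hy]
  nlinarith [mul_nonneg (sq_nonneg (‖f z‖ - ‖g z‖)) hy, mul_nonneg (sq_nonneg ‖f z‖) hy,
    mul_nonneg (sq_nonneg ‖g z‖) hy]

lemma dens_int {N : ℕ} [NeZero N] {χ : DirichletCharacter ℂ N} {f : ℍ → ℂ} (hf : IsCuspForm N χ f) {F : Set ℍ}
    (hv : volume F ≠ ∞) : IntegrableOn (dens f) F := by
  obtain ⟨C, hC0, hC⟩ := bounded hf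
  refine Measure.integrableOn_of_bounded (M := √C) hv (dens_meas hf.holo.continuous).aestronglyMeasurable ?_
  refine Filter.Eventually.of_forall fun z => ?_
  rw [Real.norm_of_nonneg (dens_nonneg f z)]
  refine Real.le_sqrt_of_sq_le ?_
  rw [dens_sq]
  exact hC z

lemma pd_int {N : ℕ} [NeZero N] {χ : DirichletCharacter ℂ N} {f g : ℍ → ℂ} (hf : IsCuspForm N χ f)
    (hg : IsCuspForm N χ g) {F : Set ℍ} (hv : volume F ≠ ∞) : IntegrableOn (pd f g) F := by
  refine Integrable.mono' ((dens_int hf hv).add (dens_int hg hv))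
    (pd_meas hf.holo.continuous hg.holo.continuous).aestronglyMeasurable ?_
  exact Filter.Eventually.of_forall fun z => norm_pd_le f g z

/-- the inequality for one form -/
theorem one_form {N : ℕ} [NeZero N] {χ : DirichletCharacter ℂ N} {f : ℍ → ℂ} (hf : IsCuspForm N χ f) {F : Set ℍ}
    (hF : MeasurableSet F) (hv : volume F ≠ ∞) (hcov : ∀ z : ℍ, ∃ γ ∈ Gamma0 N, γ • z ∈ F)
    {S : Finset ℕ} (hS : ∀ n ∈ S, 0 < n) {Y M : ℝ} (hY : 0 < Y)
    (hM : ∀ w : ℍ, (Aset N w Y).Finite ∧ ((Aset N w Y).ncard : ℝ) ≤ M) :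
    ∑ n ∈ S, ‖coeff f n‖ ^ 2 * Jr n Y ≤ M * ∫ z in F, dens f z := by
  have hM0 : 0 ≤ M := (Nat.cast_nonneg _).trans (hM ⟨Complex.I, by simp⟩).2
  have h1 := strip_ge hf S hY
  have h2 := unfold_le hF hcov (h := fun z => ENNReal.ofReal (dens f z))
    (dens_meas hf.holo.continuous).ennreal_ofReal (fun γ hγ z => by rw [dens_inv hf γ hγ z]) hM
  have h3 : ENNReal.ofReal (∑ n ∈ S, ‖coeff f n‖ ^ 2 * Jr n Y) =
      ∑ n ∈ S, ENNReal.ofReal (‖coeff f n‖ ^ 2) * Jn n Y := by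
    rw [ENNReal.ofReal_sum_of_nonneg]
    · refine Finset.sum_congr rfl fun n hn => ?_
      rw [ENNReal.ofReal_mul (by positivity), Jn_eq (hS n hn) hY]
    · intro n hn
      have := Jr_pos (hS n hn) hY
      positivity
  have h4 := h3.trans_le (h1.trans h2)
  have h5 : ∫⁻ z in F, ENNReal.ofReal (dens f z) = ENNReal.ofReal (∫ z in F, dens f z) :=
    (ofReal_integral_eq_lintegral_ofReal (dens_int hf hv)
      (Filter.Eventually.of_forall fun z => dens_nonneg f z)).symm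
  rw [h5, ← ENNReal.ofReal_mul hM0] at h4
  exact (ENNReal.ofReal_le_ofReal_iff (mul_nonneg hM0
    (setIntegral_nonneg hF fun z _ => dens_nonneg f z))).1 h4

/-! ### linear combinations -/

lemma cusp_zero (N : ℕ) (χ : DirichletCharacter ℂ N) : IsCuspForm N χ (fun _ => 0) := by
  refine ⟨mdifferentiable_const, fun γ _ z => by simp, fun σ => ?_⟩
  simp only [zero_mul]
  exact Filter.zero_zeroAtFilter _

lemma cusp_add {N : ℕ} {χ : DirichletCharacter ℂ N} {f g : ℍ → ℂ} (hf : IsCuspForm N χ f)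
    (hg : IsCuspForm N χ g) : IsCuspForm N χ (fun z => f z + g z) := by
  refine ⟨hf.holo.add hg.holo, fun γ hγ z => ?_, fun σ => ?_⟩
  · rw [hf.slash γ hγ z, hg.slash γ hγ z]; ring
  · have := (hf.zero σ).add (hg.zero σ)
    refine this.congr fun z => ?_
    simp only [Pi.add_apply]
    ring

lemma cusp_smul {N : ℕ} {χ : DirichletCharacter ℂ N} {f : ℍ → ℂ} (hf : IsCuspForm N χ f) (c : ℂ) :
    IsCuspForm N χ (fun z => c * f z) := by
  refine ⟨hf.holo.const_smul c, fun γ hγ z => ?_, fun σ => ?_⟩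
  · rw [hf.slash γ hγ z]; ring
  · have := Filter.ZeroAtFilter.smul c (hf.zero σ)
    refine this.congr fun z => ?_
    simp only [Pi.smul_apply, smul_eq_mul]
    ring

lemma cusp_sum {N : ℕ} {χ : DirichletCharacter ℂ N} {ι : Type*} (s : Finset ι) {f : ι → ℍ → ℂ}
    (hf : ∀ k, IsCuspForm N χ (f k)) (c : ι → ℂ) : IsCuspForm N χ (fun z => ∑ k ∈ s, c k * f k z) := by
  classical
  induction s using Finset.induction_on with
  | empty => simpa using cusp_zero N χ
  | insert a s ha ih =>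
    have h := cusp_add (cusp_smul (hf a) (c a)) ih
    simp only [Finset.sum_insert ha]
    exact h

lemma coeff_sum {N : ℕ} {χ : DirichletCharacter ℂ N} {ι : Type*} (s : Finset ι) {f : ι → ℍ → ℂ}
    (hf : ∀ k, IsCuspForm N χ (f k)) (c : ι → ℂ) (n : ℕ) :
    coeff (fun z => ∑ k ∈ s, c k * f k z) n = ∑ k ∈ s, c k * coeff (f k) n := by
  rw [coeff_eq (cusp_sum s hf c) n 1 one_pos]
  have h1 : ∀ k, coeff (f k) n = _ := fun k => coeff_eq (hf k) n 1 one_pos
  simp only [h1, fourierCoeffOn_eq_integral]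
  have h2 : ∀ k, IntervalIntegrable (fun x : ℝ => fourier (-(n : ℤ)) (x : AddCircle ((1:ℝ) - 0)) • (c k * f k (pt 1 one_pos x)))
      volume 0 1 := by
    intro k
    have hc : Continuous fun x : ℝ => f k (pt 1 one_pos x) := (hf k).holo.continuous.comp (pt_cont 1 one_pos)
    refine Continuous.intervalIntegrable ?_ _ _
    have hfo : Continuous fun x : ℝ => fourier (-(n : ℤ)) (x : AddCircle ((1:ℝ) - 0)) :=
      (map_continuous _).comp (AddCircle.continuous_mk' _)
    exact hfo.smul (continuous_const.mul hc)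
  have h3 : (∫ x in (0:ℝ)..1, fourier (-(n : ℤ)) (x : AddCircle ((1:ℝ) - 0)) • ∑ k ∈ s, c k * f k (pt 1 one_pos x)) =
      ∑ k ∈ s, ∫ x in (0:ℝ)..1, fourier (-(n : ℤ)) (x : AddCircle ((1:ℝ) - 0)) • (c k * f k (pt 1 one_pos x)) := by
    rw [← intervalIntegral.integral_finsetSum fun k _ => h2 k]
    refine intervalIntegral.integral_congr fun x _ => ?_
    beta_reduce
    rw [Finset.smul_sum]
  rw [h3, Finset.smul_sum, Finset.mul_sum]
  refine Finset.sum_congr rfl fun k _ => ?_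
  have h4 : (∫ x in (0:ℝ)..1, fourier (-(n : ℤ)) (x : AddCircle ((1:ℝ) - 0)) • (c k * f k (pt 1 one_pos x))) =
      c k * ∫ x in (0:ℝ)..1, fourier (-(n : ℤ)) (x : AddCircle ((1:ℝ) - 0)) • f k (pt 1 one_pos x) := by
    rw [← intervalIntegral.integral_const_mul]
    refine intervalIntegral.integral_congr fun x _ => ?_
    simp only [smul_eq_mul]
    ring
  rw [h4]
  simp only [sub_zero, ne_eq, one_ne_zero, not_false_eq_true, div_self, one_smul]
  ring

/-- the norm of a linear combination of an orthonormal family -/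
lemma norm_sum {N : ℕ} [NeZero N] {χ : DirichletCharacter ℂ N} {ι : Type*} [Fintype ι] [DecidableEq ι] {f : ι → ℍ → ℂ}
    (hf : ∀ k, IsCuspForm N χ (f k)) {F : Set ℍ} (hv : volume F ≠ ∞)
    (ho : ∀ k l, ∫ z in F, pd (f k) (f l) z = if k = l then 1 else 0) (c : ι → ℂ) :
    ∫ z in F, dens (fun z => ∑ k, c k * f k z) z = ∑ k, ‖c k‖ ^ 2 := by
  have h1 : ((∫ z in F, dens (fun z => ∑ k, c k * f k z) z : ℝ) : ℂ) = ((∑ k, ‖c k‖ ^ 2 : ℝ) : ℂ) := by
    rw [← integral_complex_ofReal]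
    have e1 : ∀ z, ((dens (fun z => ∑ k, c k * f k z) z : ℝ) : ℂ) = ∑ k, ∑ l, c k * conj (c l) * pd (f k) (f l) z := by
      intro z
      rw [← pd_self]
      unfold pd
      rw [map_sum, Finset.sum_mul_sum, Finset.sum_mul]
      refine Finset.sum_congr rfl fun k _ => ?_
      rw [Finset.sum_mul]
      refine Finset.sum_congr rfl fun l _ => ?_
      rw [map_mul]
      ring
    simp_rw [e1]
    rw [integral_finsetSum _ fun k _ => integrable_finsetSum _ fun l _ => (pd_int (hf k) (hf l) hv).const_mul _]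
    push_cast
    refine Finset.sum_congr rfl fun k _ => ?_
    rw [integral_finsetSum _ fun l _ => (pd_int (hf k) (hf l) hv).const_mul _]
    simp_rw [integral_const_mul, ho]
    simp [Complex.mul_conj, Complex.normSq_eq_norm_sq]
  exact_mod_cast h1

/-- **the large sieve inequality** -/
theorem large_sieve {N : ℕ} [NeZero N] {χ : DirichletCharacter ℂ N} {ι : Type*} [Fintype ι] [DecidableEq ι]
    {f : ι → ℍ → ℂ} (hf : ∀ k, IsCuspForm N χ (f k)) {F : Set ℍ}
    (hF : MeasurableSet F) (hv : volume F ≠ ∞) (hcov : ∀ z : ℍ, ∃ γ ∈ Gamma0 N, γ • z ∈ F)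
    (ho : ∀ k l, ∫ z in F, pd (f k) (f l) z = if k = l then 1 else 0)
    {S : Finset ℕ} (hS : ∀ n ∈ S, 0 < n) (b : ℕ → ℂ) {Y M : ℝ} (hY : 0 < Y)
    (hM : ∀ w : ℍ, (Aset N w Y).Finite ∧ ((Aset N w Y).ncard : ℝ) ≤ M) :
    ∑ k, ‖∑ n ∈ S, b n * coeff (f k) n‖ ^ 2 ≤ M * ∑ n ∈ S, ‖b n‖ ^ 2 / Jr n Y := by
  have hM0 : 0 ≤ M := (Nat.cast_nonneg _).trans (hM ⟨Complex.I, by simp⟩).2
  have hJ : ∀ n ∈ S, 0 < Jr n Y := fun n hn => Jr_pos (hS n hn) hY
  set L : ι → ℂ := fun k => ∑ n ∈ S, b n * coeff (f k) n with hL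
  set A : ℝ := ∑ k, ‖L k‖ ^ 2 with hA
  set B : ℝ := ∑ n ∈ S, ‖b n‖ ^ 2 / Jr n Y with hB
  have hA0 : 0 ≤ A := Finset.sum_nonneg fun _ _ => by positivity
  have hB0 : 0 ≤ B := Finset.sum_nonneg fun n hn => by have := hJ n hn; positivity
  set g : ℍ → ℂ := fun z => ∑ k, conj (L k) * f k z with hg
  have hgc : IsCuspForm N χ g := cusp_sum Finset.univ hf fun k => conj (L k)
  have h1 := one_form hgc hF hv hcov hS hY hM
  have h2 : ∫ z in F, dens g z = A := by
    rw [hg, norm_sum hf hv ho]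
    refine Finset.sum_congr rfl fun k _ => ?_
    rw [RCLike.norm_conj]
  rw [h2] at h1
  set Q : ℝ := ∑ n ∈ S, ‖coeff g n‖ ^ 2 * Jr n Y with hQ
  have hQ0 : 0 ≤ Q := Finset.sum_nonneg fun n hn => by have := hJ n hn; positivity
  -- `A = ∑ b_n a_g(n)`
  have h3 : ((A : ℝ) : ℂ) = ∑ n ∈ S, b n * coeff g n := by
    have e1 : ∀ n, coeff g n = ∑ k, conj (L k) * coeff (f k) n := fun n =>
      coeff_sum Finset.univ hf (fun k => conj (L k)) n
    simp only [e1, Finset.mul_sum]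
    rw [Finset.sum_comm, hA]
    push_cast
    refine Finset.sum_congr rfl fun k _ => ?_
    have e2 : ∑ n ∈ S, b n * (conj (L k) * coeff (f k) n) = conj (L k) * L k := by
      rw [hL]
      simp only [Finset.mul_sum]
      refine Finset.sum_congr rfl fun n _ => ?_
      ring
    rw [e2, mul_comm, Complex.mul_conj, Complex.normSq_eq_norm_sq]
    push_cast
    rfl
  have h4 : A ≤ ∑ n ∈ S, ‖b n‖ * ‖coeff g n‖ := by
    have e1 : A = ‖((A : ℝ) : ℂ)‖ := by rw [Complex.norm_real, Real.norm_of_nonneg hA0]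
    rw [e1, h3]
    refine (norm_sum_le _ _).trans (Finset.sum_le_sum fun n _ => ?_)
    rw [norm_mul]
  have h5 : A ^ 2 ≤ B * Q := by
    have e1 := Finset.sum_mul_sq_le_sq_mul_sq S (fun n : ℕ => ‖b n‖ / √(Jr n Y))
      (fun n : ℕ => ‖coeff g n‖ * √(Jr n Y))
    have e2 : ∑ n ∈ S, (‖b n‖ / √(Jr n Y)) * (‖coeff g n‖ * √(Jr n Y)) =
        ∑ n ∈ S, ‖b n‖ * ‖coeff g n‖ := by
      refine Finset.sum_congr rfl fun n hn => ?_
      have h0 : 0 < √(Jr n Y) := Real.sqrt_pos.2 (hJ n hn)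
      field_simp
    have e3 : ∑ n ∈ S, (‖b n‖ / √(Jr n Y)) ^ 2 = B := by
      refine Finset.sum_congr rfl fun n hn => ?_
      rw [div_pow, Real.sq_sqrt (hJ n hn).le]
    have e4 : ∑ n ∈ S, (‖coeff g n‖ * √(Jr n Y)) ^ 2 = Q := by
      refine Finset.sum_congr rfl fun n hn => ?_
      rw [mul_pow, Real.sq_sqrt (hJ n hn).le]
    rw [e2, e3, e4] at e1
    exact (pow_le_pow_left₀ hA0 h4 2).trans e1
  rcases hA0.eq_or_lt with h0 | h0
  · rw [← h0]
    positivity
  · have h7 : A * A ≤ (M * B) * A := by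
      calc A * A = A ^ 2 := by ring
        _ ≤ B * Q := h5
        _ ≤ B * (M * A) := mul_le_mul_of_nonneg_left h1 hB0
        _ = (M * B) * A := by ring
    exact le_of_mul_le_mul_right h7 h0

end

end Pool.Agent.Helper78.LS
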