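import Pool.Agent.Helper78.LS.Fam

/-! Hecke eigenforms: amplification. -/

namespace Pool.Agent.Helper78.LS

open UpperHalfPlane CongruenceSubgroup MeasureTheory
open scoped MatrixGroups ENNReal
open Pool.Agent.Q84.HW (IsCuspForm coeff)

noncomputable section

/-- `f` is an eigenform of `T(ℓ²)` for all primes `ℓ` not dividing `N` -/
def IsHecke (N : ℕ) (χ : DirichletCharacter ℂ N) (a : ℕ → ℂ) : Prop :=
  ∀ l : ℕ, l.Prime → ¬ l ∣ N → ∃ ω : ℂ, ∀ n : ℕ, 1 ≤ n →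
    a (l ^ 2 * n) + χ (l : ZMod N) * (jacobiSym (-(n : ℤ)) l : ℂ) * a n +
      χ (l : ZMod N) ^ 2 * l * (if l ^ 2 ∣ n then a (n / l ^ 2) else 0) = ω * a n

/-- one of `a(t l²)`, `a(t l⁴)` is large -/
lemma dichotomy {N : ℕ} {χ : DirichletCharacter ℂ N} {a : ℕ → ℂ} (h : IsHecke N χ a) {t : ℕ}
    (ht : Squarefree t) {l : ℕ} (hl : l.Prime) (hlN : ¬ l ∣ N) (h4 : 4 ≤ l) :
    (l : ℝ) * ‖a t‖ ^ 2 / 4 ≤ ‖a (l ^ 2 * t)‖ ^ 2 ∨ (l : ℝ) ^ 2 * ‖a t‖ ^ 2 / 4 ≤ ‖a (l ^ 2 * (l ^ 2 * t))‖ ^ 2 := by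
  obtain ⟨ω, hω⟩ := h l hl hlN
  have ht1 : 1 ≤ t := Nat.pos_of_ne_zero ht.ne_zero
  have hl0 : 0 < l := hl.pos
  have hnd : ¬ l ^ 2 ∣ t := by
    intro hd
    rw [sq] at hd
    have := ht l hd
    rw [Nat.isUnit_iff] at this
    exact hl.one_lt.ne' this
  have e1 := hω t ht1
  rw [if_neg hnd, mul_zero, add_zero] at e1
  have e2 := hω (l ^ 2 * t) (Nat.one_le_iff_ne_zero.2 (by positivity))
  have hj : jacobiSym (-((l ^ 2 * t : ℕ) : ℤ)) l = 0 := by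
    rw [jacobiSym.eq_zero_iff]
    refine ⟨hl0.ne', ?_⟩
    intro hg
    have h1 : (l:ℤ) ∣ (-((l ^ 2 * t : ℕ) : ℤ)) := by
      rw [dvd_neg]
      push_cast
      exact Dvd.dvd.mul_right (dvd_pow_self _ two_ne_zero) _
    have h2 : (l:ℤ) ∣ Int.gcd (-((l ^ 2 * t : ℕ) : ℤ)) l := Int.dvd_coe_gcd h1 (dvd_refl _)
    rw [hg] at h2
    have h3 : l ∣ 1 := by exact_mod_cast h2
    exact hl.one_lt.ne' (Nat.dvd_one.1 h3)
  rw [hj, Int.cast_zero, mul_zero, zero_mul, add_zero, if_pos (Dvd.intro _ rfl),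
    Nat.mul_div_cancel_left _ (by positivity)] at e2
  have hcop : Nat.Coprime l N := (Nat.Prime.coprime_iff_not_dvd hl).2 hlN
  have hχ : ‖χ (l : ZMod N)‖ = 1 := by
    have hu : IsUnit (l : ZMod N) := (ZMod.isUnit_iff_coprime l N).2 hcop
    obtain ⟨u, hu⟩ := hu
    rw [← hu]
    exact χ.unit_norm_eq_one u
  set ε : ℂ := χ (l : ZMod N) * (jacobiSym (-(t : ℤ)) l : ℂ) with hε
  have hε1 : ‖ε‖ ≤ 1 := by
    rw [hε, norm_mul, hχ, one_mul]
    rcases jacobiSym.trichotomy (-(t:ℤ)) l with h | h | h <;> rw [h] <;> simp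
  have e3 : a (l ^ 2 * t) = (ω - ε) * a t := by linear_combination e1
  have e4 : a (l ^ 2 * (l ^ 2 * t)) = (ω * (ω - ε) - χ (l : ZMod N) ^ 2 * l) * a t := by
    linear_combination e2 + ω * e3
  have hlr : (4:ℝ) ≤ l := by exact_mod_cast h4
  by_cases hc : (l:ℝ) / 4 ≤ ‖ω - ε‖ ^ 2
  · left
    rw [e3, norm_mul, mul_pow]
    nlinarith [mul_le_mul_of_nonneg_right hc (sq_nonneg ‖a t‖)]
  · right
    push Not at hc
    set s : ℝ := √l with hs
    have hs2 : s ^ 2 = l := Real.sq_sqrt (by positivity)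
    have hs0 : 0 ≤ s := Real.sqrt_nonneg _
    have hs4 : 2 ≤ s := by
      rw [hs]
      refine Real.le_sqrt_of_sq_le ?_
      linarith
    have h1 : ‖ω - ε‖ ≤ s / 2 := by
      have : ‖ω - ε‖ ^ 2 ≤ (s / 2) ^ 2 := by
        rw [div_pow, hs2]
        linarith
      exact (sq_le_sq₀ (norm_nonneg _) (by positivity)).1 this
    have h2 : ‖ω‖ ≤ s / 2 + 1 := by
      have : ‖ω‖ ≤ ‖ω - ε‖ + ‖ε‖ := by
        have := norm_add_le (ω - ε) ε
        rwa [sub_add_cancel] at this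
      linarith
    have h3 : (l:ℝ) / 2 ≤ ‖ω * (ω - ε) - χ (l : ZMod N) ^ 2 * l‖ := by
      have h4 : ‖χ (l : ZMod N) ^ 2 * (l:ℂ)‖ = l := by
        rw [norm_mul, norm_pow, hχ]
        simp
      have h5 : ‖ω * (ω - ε)‖ ≤ (s / 2 + 1) * (s / 2) := by
        rw [norm_mul]
        exact mul_le_mul h2 h1 (norm_nonneg _) (by positivity)
      have h6 := norm_sub_norm_le (χ (l : ZMod N) ^ 2 * (l:ℂ)) (ω * (ω - ε))
      rw [h4, norm_sub_rev] at h6
      nlinarith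
    rw [e4, norm_mul, mul_pow]
    have h7 : ((l:ℝ) / 2) ^ 2 ≤ ‖ω * (ω - ε) - χ (l : ZMod N) ^ 2 * l‖ ^ 2 :=
      pow_le_pow_left₀ (by positivity) h3 2
    nlinarith [mul_le_mul_of_nonneg_right h7 (sq_nonneg ‖a t‖)]

/-- the primes `4 ≤ l ≤ L` not dividing `N` -/
def PP (N L : ℕ) : Finset ℕ := (Finset.Icc 4 L).filter fun l => l.Prime ∧ ¬ l ∣ N

/-- the amplified inequality -/
theorem amplified {N : ℕ} [NeZero N] {χ : DirichletCharacter ℂ N} {f : ℍ → ℂ} (hf : IsCuspForm N χ f) {F : Set ℍ}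
    (hF : MeasurableSet F) (hv : volume F ≠ ∞) (hcov : ∀ z : ℍ, ∃ γ ∈ Gamma0 N, γ • z ∈ F)
    (hH : IsHecke N χ (coeff f)) {t : ℕ} (ht : Squarefree t) (L : ℕ) :
    ‖coeff f t‖ ^ 2 * (PP N L).card ≤ 16 * (1 + 192 * (t * L ^ 4) / N) * √t * ∫ z in F, dens f z := by
  classical
  have hN : 0 < N := Nat.pos_of_ne_zero (NeZero.ne N)
  have hN0 : (0:ℝ) < N := by exact_mod_cast hN
  have ht1 : 0 < t := Nat.pos_of_ne_zero ht.ne_zero
  have ht0 : (0:ℝ) < t := by exact_mod_cast ht1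
  have hI0 : 0 ≤ ∫ z in F, dens f z := setIntegral_nonneg hF fun z _ => dens_nonneg f z
  set ν : ℕ → ℕ := fun l => if (l : ℝ) * ‖coeff f t‖ ^ 2 / 4 ≤ ‖coeff f (l ^ 2 * t)‖ ^ 2 then l ^ 2 * t
    else l ^ 2 * (l ^ 2 * t) with hν
  have hpr : ∀ l ∈ PP N L, l.Prime ∧ ¬ l ∣ N ∧ 4 ≤ l ∧ l ≤ L := by
    intro l hl
    rw [PP, Finset.mem_filter, Finset.mem_Icc] at hl
    exact ⟨hl.2.1, hl.2.2, hl.1.1, hl.1.2⟩
  have hνform : ∀ l, ∃ e : ℕ, e ≠ 0 ∧ ν l = l ^ e * t := by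
    intro l
    simp only [hν]
    split_ifs
    · exact ⟨2, by norm_num, rfl⟩
    · exact ⟨4, by norm_num, by ring⟩
  have hinj : Set.InjOn ν (PP N L) := by
    intro l hl l' hl' he
    obtain ⟨e, he0, h1⟩ := hνform l
    obtain ⟨e', he0', h2⟩ := hνform l'
    rw [h1, h2] at he
    have h3 : l ^ e = l' ^ e' := Nat.eq_of_mul_eq_mul_right ht1 he
    have hp := (hpr l hl).1
    have hp' := (hpr l' hl').1
    have h4 : l ∣ l' ^ e' := by rw [← h3]; exact dvd_pow_self _ he0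
    exact (Nat.prime_dvd_prime_iff_eq hp hp').1 (hp.dvd_of_dvd_pow h4)
  have hpos : ∀ l ∈ PP N L, 0 < ν l := by
    intro l hl
    obtain ⟨e, he0, h1⟩ := hνform l
    rw [h1]
    have := (hpr l hl).1.pos
    positivity
  rcases (PP N L).eq_empty_or_nonempty with hemp | ⟨l0, hl0⟩
  · rw [hemp, Finset.card_empty, Nat.cast_zero, mul_zero]
    positivity
  have hL : 4 ≤ L := (hpr l0 hl0).2.2.1.trans (hpr l0 hl0).2.2.2
  have hL0 : (0:ℝ) < L := by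
    have : (4:ℝ) ≤ L := by exact_mod_cast hL
    linarith
  have hY : 0 < 1 / (64 * ((t:ℝ) * L ^ 4)) := by positivity
  have h1 := one_form hf hF hv hcov (S := (PP N L).image ν)
    (fun n hn => by
      obtain ⟨l, hl, rfl⟩ := Finset.mem_image.1 hn
      exact hpos l hl) hY (fun w => count_all hN w hY)
  rw [Finset.sum_image hinj] at h1
  have e : (1 + 3 / ((N : ℝ) * (1 / (64 * ((t:ℝ) * L ^ 4))))) = 1 + 192 * (t * L ^ 4) / N := by
    field_simp; ring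
  rw [e] at h1
  have h2 : ∀ l ∈ PP N L, ‖coeff f t‖ ^ 2 / (16 * √t) ≤ ‖coeff f (ν l)‖ ^ 2 * Jr (ν l) (1 / (64 * ((t:ℝ) * L ^ 4))) := by
    intro l hl
    obtain ⟨hp, hpN, hl4, hlL⟩ := hpr l hl
    have hl0 : (0:ℝ) < l := by exact_mod_cast hp.pos
    have hl1 : (1:ℝ) ≤ l := by exact_mod_cast hp.one_lt.le
    have hlLr : (l:ℝ) ≤ L := by exact_mod_cast hlL
    have hst : 0 < √(t:ℝ) := Real.sqrt_pos.2 ht0
    have key : ∀ m : ℕ, 0 < m → (m:ℝ) ≤ t * L ^ 4 → 1 / 4 / √m ≤ Jr m (1 / (64 * ((t:ℝ) * L ^ 4))) := by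
      intro m hm hmle
      have hm0 : (0:ℝ) < m := by exact_mod_cast hm
      refine le_trans ?_ (Jr_ge hm hY)
      rw [div_le_div_iff_of_pos_right (Real.sqrt_pos.2 hm0)]
      have h3 : √((m:ℝ) * (1 / (64 * ((t:ℝ) * L ^ 4)))) ≤ 1 / 8 := by
        rw [Real.sqrt_le_left (by norm_num), mul_one_div, div_le_iff₀ (by positivity)]
        nlinarith
      linarith
    have hl4r : (l:ℝ) ^ 4 ≤ (L:ℝ) ^ 4 := pow_le_pow_left₀ hl0.le hlLr 4
    have hl2r : (l:ℝ) ^ 2 ≤ (L:ℝ) ^ 4 := by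
      refine le_trans ?_ hl4r
      exact pow_le_pow_right₀ hl1 (by norm_num)
    by_cases hc : (l : ℝ) * ‖coeff f t‖ ^ 2 / 4 ≤ ‖coeff f (l ^ 2 * t)‖ ^ 2
    · have hνl : ν l = l ^ 2 * t := by simp only [hν]; rw [if_pos hc]
      rw [hνl]
      have h4 := key (l ^ 2 * t) (by positivity) (by
        push_cast
        nlinarith)
      have h5 : √((l ^ 2 * t : ℕ) : ℝ) = l * √t := by
        push_cast
        rw [Real.sqrt_mul (by positivity), Real.sqrt_sq hl0.le]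
      rw [h5] at h4
      calc ‖coeff f t‖ ^ 2 / (16 * √t) = ((l : ℝ) * ‖coeff f t‖ ^ 2 / 4) * (1 / 4 / (l * √t)) := by
            field_simp; norm_num
        _ ≤ _ := mul_le_mul hc h4 (by positivity) (by positivity)
    · have hνl : ν l = l ^ 2 * (l ^ 2 * t) := by simp only [hν]; rw [if_neg hc]
      rw [hνl]
      have hd := (dichotomy hH ht hp hpN hl4).resolve_left hc
      have h4 := key (l ^ 2 * (l ^ 2 * t)) (by positivity) (by
        push_cast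
        nlinarith)
      have h5 : √((l ^ 2 * (l ^ 2 * t) : ℕ) : ℝ) = l ^ 2 * √t := by
        push_cast
        rw [← mul_assoc, Real.sqrt_mul (by positivity), Real.sqrt_mul_self (by positivity)]
      rw [h5] at h4
      calc ‖coeff f t‖ ^ 2 / (16 * √t) = ((l : ℝ) ^ 2 * ‖coeff f t‖ ^ 2 / 4) * (1 / 4 / (l ^ 2 * √t)) := by
            field_simp; norm_num
        _ ≤ _ := mul_le_mul hd h4 (by positivity) (by positivity)
  have h3 := Finset.sum_le_sum h2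
  rw [Finset.sum_const, nsmul_eq_mul] at h3
  have h4 := h3.trans h1
  have hst : 0 < √(t:ℝ) := Real.sqrt_pos.2 ht0
  have h5 : ‖coeff f t‖ ^ 2 * (PP N L).card = ((PP N L).card * (‖coeff f t‖ ^ 2 / (16 * √t))) * (16 * √t) := by
    field_simp
  rw [h5]
  calc _ ≤ ((1 + 192 * (t * L ^ 4) / N) * ∫ z in F, dens f z) * (16 * √t) :=
        mul_le_mul_of_nonneg_right h4 (by positivity)
    _ = _ := by ring

end

end Pool.Agent.Helper78.LS
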