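import Pool.Agent.Helper78.LS.Hecke

/-! Hecke eigenforms: amplification, summed over all squarefree indices. -/

namespace Pool.Agent.Helper78.LS

open UpperHalfPlane CongruenceSubgroup MeasureTheory
open scoped MatrixGroups ENNReal
open Pool.Agent.Q84.HW (IsCuspForm coeff)

noncomputable section

/-- the squarefree `1 ≤ t ≤ T` -/
def SF (T : ℕ) : Finset ℕ := (Finset.Icc 1 T).filter fun t => Squarefree t

/-- the index `t l²` or `t l⁴` -/
def nu (a : ℕ → ℂ) (q : ℕ × ℕ) : ℕ :=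
  open Classical in
  if (q.2 : ℝ) * ‖a q.1‖ ^ 2 / 4 ≤ ‖a (q.2 ^ 2 * q.1)‖ ^ 2 then q.2 ^ 2 * q.1
    else q.2 ^ 2 * (q.2 ^ 2 * q.1)

lemma nu_form (a : ℕ → ℂ) (q : ℕ × ℕ) : nu a q = q.2 ^ 2 * q.1 ∨ nu a q = q.2 ^ 4 * q.1 := by
  unfold nu
  split_ifs
  · left; rfl
  · right; ring

lemma inj_aux {t t' l l' e e' : ℕ} (ht' : Squarefree t') (hl : l.Prime) (hl' : l'.Prime)
    (he : 2 ≤ e) (h : l ^ e * t = l' ^ e' * t') : l = l' := by
  by_contra hne
  have h1 : l ^ e ∣ l' ^ e' * t' := by rw [← h]; exact dvd_mul_right _ _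
  have h2 : Nat.Coprime (l ^ e) (l' ^ e') := by
    apply Nat.Coprime.pow
    exact (Nat.coprime_primes hl hl').2 hne
  have h3 : l ^ e ∣ t' := h2.dvd_of_dvd_mul_left h1
  have h4 : l * l ∣ t' := by
    rw [← sq]
    exact (pow_dvd_pow l he).trans h3
  have := ht' l h4
  rw [Nat.isUnit_iff] at this
  exact hl.one_lt.ne' this

lemma sq_not_dvd {t l : ℕ} (ht : Squarefree t) (hl : l.Prime) : ¬ l ^ 2 ∣ t := by
  intro hd
  rw [sq] at hd
  have := ht l hd
  rw [Nat.isUnit_iff] at this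
  exact hl.one_lt.ne' this

lemma nu_inj (a : ℕ → ℂ) (N T L : ℕ) : Set.InjOn (nu a) (SF T ×ˢ PP N L : Finset (ℕ × ℕ)) := by
  rintro ⟨t, l⟩ hq ⟨t', l'⟩ hq' h
  rw [Finset.mem_coe, Finset.mem_product, SF, PP, Finset.mem_filter, Finset.mem_filter] at hq hq'
  obtain ⟨⟨-, ht⟩, -, hl, -⟩ := hq
  obtain ⟨⟨-, ht'⟩, -, hl', -⟩ := hq'
  simp only at ht hl ht' hl'
  have hf := nu_form a (t, l)
  have hf' := nu_form a (t', l')
  simp only at hf hf'
  have hll : l = l' := by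
    rcases hf with hf | hf <;> rcases hf' with hf' | hf'
    · exact inj_aux ht' hl hl' le_rfl (by rw [← hf, ← hf', h])
    · exact inj_aux ht' hl hl' le_rfl (by rw [← hf, ← hf', h])
    · exact inj_aux (e := 4) (e' := 2) ht' hl hl' (by norm_num) (by rw [← hf, ← hf', h])
    · exact inj_aux (e := 4) (e' := 4) ht' hl hl' (by norm_num) (by rw [← hf, ← hf', h])
  subst hll
  have hp2 : 0 < l ^ 2 := by have := hl.pos; positivity
  have hp4 : 0 < l ^ 4 := by have := hl.pos; positivity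
  have htt : t = t' := by
    rcases hf with hf | hf <;> rcases hf' with hf' | hf'
    · exact Nat.eq_of_mul_eq_mul_left hp2 (by rw [← hf, ← hf', h])
    · exfalso
      have e : l ^ 2 * t = l ^ 2 * (l ^ 2 * t') := by
        rw [← hf, h, hf']; ring
      have e' := Nat.eq_of_mul_eq_mul_left hp2 e
      exact sq_not_dvd ht hl (e' ▸ dvd_mul_right _ _)
    · exfalso
      have e : l ^ 2 * (l ^ 2 * t) = l ^ 2 * t' := by
        rw [← hf', ← h, hf]; ring
      have e' := Nat.eq_of_mul_eq_mul_left hp2 e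
      exact sq_not_dvd ht' hl (e' ▸ dvd_mul_right _ _)
    · exact Nat.eq_of_mul_eq_mul_left hp4 (by rw [← hf, ← hf', h])
  rw [htt]

/-- the amplified inequality, for all squarefree indices together -/
theorem amplified_sum {N : ℕ} [NeZero N] {χ : DirichletCharacter ℂ N} {f : ℍ → ℂ} (hf : IsCuspForm N χ f) {F : Set ℍ}
    (hF : MeasurableSet F) (hv : volume F ≠ ∞) (hcov : ∀ z : ℍ, ∃ γ ∈ Gamma0 N, γ • z ∈ F)
    (hH : IsHecke N χ (coeff f)) (T L : ℕ) :
    (∑ t ∈ SF T, ‖coeff f t‖ ^ 2 / √t) * (PP N L).card ≤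
      16 * (1 + 192 * (T * L ^ 4) / N) * ∫ z in F, dens f z := by
  classical
  have hN : 0 < N := Nat.pos_of_ne_zero (NeZero.ne N)
  have hN0 : (0:ℝ) < N := by exact_mod_cast hN
  have hI0 : 0 ≤ ∫ z in F, dens f z := setIntegral_nonneg hF fun z _ => dens_nonneg f z
  have hpr : ∀ l ∈ PP N L, l.Prime ∧ ¬ l ∣ N ∧ 4 ≤ l ∧ l ≤ L := by
    intro l hl
    rw [PP, Finset.mem_filter, Finset.mem_Icc] at hl
    exact ⟨hl.2.1, hl.2.2, hl.1.1, hl.1.2⟩
  have htr : ∀ t ∈ SF T, Squarefree t ∧ 1 ≤ t ∧ t ≤ T := by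
    intro t ht
    rw [SF, Finset.mem_filter, Finset.mem_Icc] at ht
    exact ⟨ht.2, ht.1.1, ht.1.2⟩
  rcases (PP N L).eq_empty_or_nonempty with hemp | ⟨l0, hl0⟩
  · rw [hemp, Finset.card_empty, Nat.cast_zero, mul_zero]
    positivity
  rcases Nat.eq_zero_or_pos T with hT | hT
  · have : SF T = ∅ := by rw [SF, hT]; rfl
    rw [this, Finset.sum_empty, zero_mul]
    positivity
  have hT0 : (0:ℝ) < T := by exact_mod_cast hT
  have hL : 4 ≤ L := (hpr l0 hl0).2.2.1.trans (hpr l0 hl0).2.2.2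
  have hL0 : (0:ℝ) < L := by
    have : (4:ℝ) ≤ L := by exact_mod_cast hL
    linarith
  have hY : 0 < 1 / (64 * ((T:ℝ) * L ^ 4)) := by positivity
  have h1 := one_form hf hF hv hcov (S := (SF T ×ˢ PP N L).image (nu (coeff f)))
    (fun n hn => by
      obtain ⟨⟨t, l⟩, hq, rfl⟩ := Finset.mem_image.1 hn
      rw [Finset.mem_product] at hq
      have h1 := (hpr l hq.2).1.pos
      have h2 := (htr t hq.1).2.1
      rcases nu_form (coeff f) (t, l) with h | h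
      · rw [h]; positivity
      · rw [h]; positivity) hY (fun w => count_all hN w hY)
  rw [Finset.sum_image (nu_inj (coeff f) N T L)] at h1
  have e : (1 + 3 / ((N : ℝ) * (1 / (64 * ((T:ℝ) * L ^ 4))))) = 1 + 192 * (T * L ^ 4) / N := by
    field_simp; ring
  rw [e] at h1
  have h2 : ∀ q ∈ SF T ×ˢ PP N L, ‖coeff f q.1‖ ^ 2 / √(q.1 : ℝ) / 16 ≤
      ‖coeff f (nu (coeff f) q)‖ ^ 2 * Jr (nu (coeff f) q) (1 / (64 * ((T:ℝ) * L ^ 4))) := by
    rintro ⟨t, l⟩ hq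
    rw [Finset.mem_product] at hq
    obtain ⟨hp, hpN, hl4, hlL⟩ := hpr l hq.2
    obtain ⟨ht, ht1, htT⟩ := htr t hq.1
    simp only
    have ht0 : (0:ℝ) < t := by exact_mod_cast ht1
    have htTr : (t:ℝ) ≤ T := by exact_mod_cast htT
    have hl0 : (0:ℝ) < l := by exact_mod_cast hp.pos
    have hl1 : (1:ℝ) ≤ l := by exact_mod_cast hp.one_lt.le
    have hlLr : (l:ℝ) ≤ L := by exact_mod_cast hlL
    have hst : 0 < √(t:ℝ) := Real.sqrt_pos.2 ht0
    have key : ∀ m : ℕ, 0 < m → (m:ℝ) ≤ T * L ^ 4 → 1 / 4 / √m ≤ Jr m (1 / (64 * ((T:ℝ) * L ^ 4))) := by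
      intro m hm hmle
      have hm0 : (0:ℝ) < m := by exact_mod_cast hm
      refine le_trans ?_ (Jr_ge hm hY)
      rw [div_le_div_iff_of_pos_right (Real.sqrt_pos.2 hm0)]
      have h3 : √((m:ℝ) * (1 / (64 * ((T:ℝ) * L ^ 4)))) ≤ 1 / 8 := by
        rw [Real.sqrt_le_left (by norm_num), mul_one_div, div_le_iff₀ (by positivity)]
        nlinarith
      linarith
    have hl4r : (l:ℝ) ^ 4 ≤ (L:ℝ) ^ 4 := pow_le_pow_left₀ hl0.le hlLr 4
    have hl2r : (l:ℝ) ^ 2 ≤ (L:ℝ) ^ 4 := by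
      refine le_trans ?_ hl4r
      exact pow_le_pow_right₀ hl1 (by norm_num)
    by_cases hc : (l : ℝ) * ‖coeff f t‖ ^ 2 / 4 ≤ ‖coeff f (l ^ 2 * t)‖ ^ 2
    · have hνl : nu (coeff f) (t, l) = l ^ 2 * t := by simp only [nu]; rw [if_pos hc]
      rw [hνl]
      have h4 := key (l ^ 2 * t) (by have := hp.pos; positivity) (by
        push_cast
        calc (l:ℝ) ^ 2 * t ≤ (L:ℝ) ^ 4 * T := mul_le_mul hl2r htTr ht0.le (by positivity)
          _ = _ := by ring)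
      have h5 : √((l ^ 2 * t : ℕ) : ℝ) = l * √t := by
        push_cast
        rw [Real.sqrt_mul (by positivity), Real.sqrt_sq hl0.le]
      rw [h5] at h4
      calc ‖coeff f t‖ ^ 2 / √(t:ℝ) / 16 = ((l : ℝ) * ‖coeff f t‖ ^ 2 / 4) * (1 / 4 / (l * √t)) := by
            field_simp; norm_num
        _ ≤ _ := mul_le_mul hc h4 (by positivity) (by positivity)
    · have hνl : nu (coeff f) (t, l) = l ^ 2 * (l ^ 2 * t) := by simp only [nu]; rw [if_neg hc]
      rw [hνl]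
      have hd := (dichotomy hH ht hp hpN hl4).resolve_left hc
      have h4 := key (l ^ 2 * (l ^ 2 * t)) (by have := hp.pos; positivity) (by
        push_cast
        calc (l:ℝ) ^ 2 * (l ^ 2 * t) = (l:ℝ) ^ 4 * t := by ring
          _ ≤ (L:ℝ) ^ 4 * T := mul_le_mul hl4r htTr ht0.le (by positivity)
          _ = _ := by ring)
      have h5 : √((l ^ 2 * (l ^ 2 * t) : ℕ) : ℝ) = l ^ 2 * √t := by
        push_cast
        rw [← mul_assoc, Real.sqrt_mul (by positivity), Real.sqrt_mul_self (by positivity)]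
      rw [h5] at h4
      calc ‖coeff f t‖ ^ 2 / √(t:ℝ) / 16 = ((l : ℝ) ^ 2 * ‖coeff f t‖ ^ 2 / 4) * (1 / 4 / (l ^ 2 * √t)) := by
            field_simp; norm_num
        _ ≤ _ := mul_le_mul hd h4 (by positivity) (by positivity)
  have h3 := (Finset.sum_le_sum h2).trans h1
  rw [Finset.sum_product] at h3
  simp only [Finset.sum_const, nsmul_eq_mul] at h3
  have h5 : ∑ t ∈ SF T, ((PP N L).card : ℝ) * (‖coeff f t‖ ^ 2 / √(t:ℝ) / 16) =
      (∑ t ∈ SF T, ‖coeff f t‖ ^ 2 / √t) * (PP N L).card / 16 := by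
    rw [Finset.sum_mul, Finset.sum_div]
    refine Finset.sum_congr rfl fun t _ => ?_
    ring
  rw [h5] at h3
  linarith

/-- the bound without amplification -/
theorem trivial_sum {N : ℕ} [NeZero N] {χ : DirichletCharacter ℂ N} {f : ℍ → ℂ} (hf : IsCuspForm N χ f) {F : Set ℍ}
    (hF : MeasurableSet F) (hv : volume F ≠ ∞) (hcov : ∀ z : ℍ, ∃ γ ∈ Gamma0 N, γ • z ∈ F) {T : ℕ} (hT : 1 ≤ T) :
    ∑ t ∈ SF T, ‖coeff f t‖ ^ 2 / √t ≤ 4 * (1 + 192 * T / N) * ∫ z in F, dens f z := by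
  have hN : 0 < N := Nat.pos_of_ne_zero (NeZero.ne N)
  have hN0 : (0:ℝ) < N := by exact_mod_cast hN
  have hT0 : (0:ℝ) < T := by exact_mod_cast hT
  have hY : 0 < 1 / (64 * (T:ℝ)) := by positivity
  have h1 := one_form hf hF hv hcov (S := SF T)
    (fun n hn => by
      rw [SF, Finset.mem_filter, Finset.mem_Icc] at hn
      omega) hY (fun w => count_all hN w hY)
  have e : (1 + 3 / ((N : ℝ) * (1 / (64 * (T:ℝ))))) = 1 + 192 * T / N := by
    field_simp; ring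
  rw [e] at h1
  have h2 : ∀ t ∈ SF T, ‖coeff f t‖ ^ 2 / √(t:ℝ) / 4 ≤ ‖coeff f t‖ ^ 2 * Jr t (1 / (64 * (T:ℝ))) := by
    intro t ht
    rw [SF, Finset.mem_filter, Finset.mem_Icc] at ht
    have ht1 : 1 ≤ t := ht.1.1
    have ht0 : (0:ℝ) < t := by exact_mod_cast ht1
    have htT : (t:ℝ) ≤ T := by exact_mod_cast ht.1.2
    have h3 : 1 / 4 / √(t:ℝ) ≤ Jr t (1 / (64 * (T:ℝ))) := by
      refine le_trans ?_ (Jr_ge (by omega) hY)
      rw [div_le_div_iff_of_pos_right (Real.sqrt_pos.2 ht0)]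
      have h3 : √((t:ℝ) * (1 / (64 * (T:ℝ)))) ≤ 1 / 8 := by
        rw [Real.sqrt_le_left (by norm_num), mul_one_div, div_le_iff₀ (by positivity)]
        nlinarith
      linarith
    calc ‖coeff f t‖ ^ 2 / √(t:ℝ) / 4 = ‖coeff f t‖ ^ 2 * (1 / 4 / √(t:ℝ)) := by ring
      _ ≤ _ := mul_le_mul_of_nonneg_left h3 (by positivity)
  have h3 := (Finset.sum_le_sum h2).trans h1
  rw [← Finset.sum_div] at h3
  linarith

end

end Pool.Agent.Helper78.LS
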