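import Pool.Agent.Helper78.LS.Dom
import Pool.Graph.R_pool_sql_team_seeded_3997aac3.Q84.HW.Mean

/-! The Fourier coefficients and the part of the strip above height `Y`. -/

namespace Pool.Agent.Helper78.LS

open UpperHalfPlane CongruenceSubgroup MeasureTheory Set
open scoped MatrixGroups ENNReal
open Pool.Agent.Q84.HW (IsCuspForm coeff coeff_eq pt pt_im pt_cont G G_inv bounded)
open Pool.Agent.W165.RS (lintegral_H extend_apply')

noncomputable section

/-- the density `|f|² y^(3/2)` -/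
def dens (f : ℍ → ℂ) (z : ℍ) : ℝ := ‖f z‖ ^ 2 * z.im ^ (3 / 2 : ℝ)

lemma dens_nonneg (f : ℍ → ℂ) (z : ℍ) : 0 ≤ dens f z := by
  unfold dens
  have := z.im_pos
  positivity

lemma dens_sq (f : ℍ → ℂ) (z : ℍ) : dens f z ^ 2 = G f z := by
  unfold dens G
  rw [mul_pow, ← pow_mul, ← Real.rpow_natCast (z.im ^ (3 / 2 : ℝ)) 2, ← Real.rpow_mul z.im_pos.le]
  norm_num

lemma dens_inv {N : ℕ} {χ : DirichletCharacter ℂ N} {f : ℍ → ℂ} (hf : IsCuspForm N χ f) (γ : SL(2, ℤ))
    (hγ : γ ∈ Gamma0 N) (z : ℍ) : dens f (γ • z) = dens f z := by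
  have h := G_inv hf γ hγ z
  rw [← dens_sq, ← dens_sq] at h
  exact (sq_eq_sq₀ (dens_nonneg f _) (dens_nonneg f _)).1 h

lemma dens_meas {f : ℍ → ℂ} (hf : Continuous f) : Measurable (dens f) := by
  unfold dens
  exact ((hf.norm.pow 2).measurable).mul (meas_im.pow_const _)

/-- Bessel's inequality on a horocycle -/
lemma bessel {N : ℕ} {χ : DirichletCharacter ℂ N} {f : ℍ → ℂ} (hf : IsCuspForm N χ f) (S : Finset ℕ) {t : ℝ}
    (ht : 0 < t) : ∑ n ∈ S, ENNReal.ofReal (‖coeff f n‖ ^ 2 * Real.exp (-(4 * Real.pi * n * t))) ≤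
      ∫⁻ x in Ico (0:ℝ) 1, ENNReal.ofReal (‖f (pt t ht x)‖ ^ 2) := by
  set g : ℝ → ℂ := fun u : ℝ => f (pt t ht u) with hg
  have hgc : Continuous g := hf.holo.continuous.comp (pt_cont t ht)
  have hL2 : MemLp g 2 (volume.restrict (Set.Ioc (0 : ℝ) 1)) := by
    obtain ⟨C, hC⟩ := (isCompact_Icc (a := (0:ℝ)) (b := 1)).exists_bound_of_continuousOn hgc.continuousOn
    refine MemLp.of_bound hgc.aestronglyMeasurable C ?_
    filter_upwards [ae_restrict_mem measurableSet_Ioc] with x hx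
    exact hC x ⟨hx.1.le, hx.2⟩
  have hsum := hasSum_sq_fourierCoeffOn (zero_lt_one' ℝ) hL2
  have h1 : ∑ n ∈ S, ‖fourierCoeffOn (zero_lt_one' ℝ) g (n : ℤ)‖ ^ 2 ≤
      (1 - 0 : ℝ)⁻¹ • ∫ x in (0 : ℝ)..1, ‖g x‖ ^ 2 := by
    have h2 := sum_le_hasSum (S.map Nat.castEmbedding) (fun i _ => by positivity) hsum
    rw [Finset.sum_map] at h2
    exact h2
  rw [sub_zero, inv_one, one_smul] at h1
  have h2 : ∀ n : ℕ, ‖coeff f n‖ ^ 2 * Real.exp (-(4 * Real.pi * n * t)) =
      ‖fourierCoeffOn (zero_lt_one' ℝ) g (n : ℤ)‖ ^ 2 := by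
    intro n
    rw [coeff_eq hf n t ht, ← hg, norm_mul, mul_pow, Complex.norm_exp, ← Real.exp_nat_mul]
    have h4 : (2 * Real.pi * n * t : ℂ).re = 2 * Real.pi * n * t := by
      have : (2 * Real.pi * n * t : ℂ) = ((2 * Real.pi * n * t : ℝ) : ℂ) := by push_cast; ring
      rw [this, Complex.ofReal_re]
    rw [h4, mul_right_comm, ← Real.exp_add]
    rw [show ((2 : ℕ) : ℝ) * (2 * Real.pi * n * t) + -(4 * Real.pi * n * t) = 0 by push_cast; ring,
      Real.exp_zero, one_mul]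
  have hgc2 : Continuous fun x : ℝ => ‖f (pt t ht x)‖ ^ 2 := hgc.norm.pow 2
  rw [← ofReal_integral_eq_lintegral_ofReal (hgc2.integrableOn_Icc.mono_set Set.Ico_subset_Icc_self)
    (Filter.Eventually.of_forall fun x => by positivity), integral_Ico_eq_integral_Ioc,
    ← intervalIntegral.integral_of_le zero_le_one, ← ENNReal.ofReal_sum_of_nonneg (fun n _ => by positivity)]
  refine ENNReal.ofReal_le_ofReal ?_
  rw [Finset.sum_congr rfl fun n _ => h2 n]
  exact h1

/-- the `y`-integral -/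
def Jn (n : ℕ) (Y : ℝ) : ℝ≥0∞ := ∫⁻ v in Ici Y, ENNReal.ofReal (Real.exp (-(4 * Real.pi * n * v)) * v ^ (-(1 / 2) : ℝ))

lemma strip_ge {N : ℕ} {χ : DirichletCharacter ℂ N} {f : ℍ → ℂ} (hf : IsCuspForm N χ f) (S : Finset ℕ) {Y : ℝ}
    (hY : 0 < Y) : ∑ n ∈ S, ENNReal.ofReal (‖coeff f n‖ ^ 2) * Jn n Y ≤
      ∫⁻ z in Ey Y, ENNReal.ofReal (dens f z) := by
  have hmH : Measurable ((Ey Y).indicator fun z : ℍ => ENNReal.ofReal (dens f z)) :=
    ((dens_meas hf.holo.continuous).ennreal_ofReal).indicator (measSet_Ey Y)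
  rw [← lintegral_indicator (measSet_Ey Y), lintegral_H _ hmH, ← lintegral_indicator measurableSet_Ioi]
  have e0 : ∑ n ∈ S, ENNReal.ofReal (‖coeff f n‖ ^ 2) * Jn n Y =
      ∫⁻ v, (Ici Y).indicator (fun v => ∑ n ∈ S, ENNReal.ofReal (‖coeff f n‖ ^ 2 *
        Real.exp (-(4 * Real.pi * n * v))) * ENNReal.ofReal (v ^ (-(1 / 2) : ℝ))) v := by
    rw [lintegral_indicator measurableSet_Ici, lintegral_finsetSum]
    · refine Finset.sum_congr rfl fun n _ => ?_
      unfold Jn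
      rw [← lintegral_const_mul' _ _ ENNReal.ofReal_ne_top]
      refine setLIntegral_congr_fun measurableSet_Ici fun v hv => ?_
      have hv0 : 0 < v := lt_of_lt_of_le hY hv
      rw [← ENNReal.ofReal_mul (by positivity), ← ENNReal.ofReal_mul (by positivity), mul_assoc]
      simp only [mul_assoc]
    · intro n _
      fun_prop
  rw [e0]
  refine lintegral_mono fun v => ?_
  by_cases hYv : Y ≤ v
  · have hv : 0 < v := lt_of_lt_of_le hY hYv
    rw [Set.indicator_of_mem (show v ∈ Ioi (0:ℝ) from hv), Set.indicator_of_mem (show v ∈ Ici Y from hYv)]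
    have e1 : ∀ x : ℝ, Function.extend UpperHalfPlane.coe
        ((Ey Y).indicator fun z : ℍ => ENNReal.ofReal (dens f z)) 0 (x + v * Complex.I) *
        ENNReal.ofReal ((1 / v) ^ 2) = (Set.Ico (0:ℝ) 1).indicator (fun x : ℝ =>
        ENNReal.ofReal (‖f (pt v hv x)‖ ^ 2) * ENNReal.ofReal (v ^ (-(1 / 2) : ℝ))) x := by
      intro x
      rw [extend_apply' _ x hv]
      have e2 : (⟨x + v * Complex.I, by simpa using hv⟩ : ℍ) = pt v hv x := rfl
      rw [e2]
      have e3 : (pt v hv x).im = v := pt_im v hv x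
      have e4 : (pt v hv x).re = x := by
        rw [← UpperHalfPlane.coe_re]
        simp [pt]
      by_cases hx : x ∈ Set.Ico (0:ℝ) 1
      · rw [Set.indicator_of_mem hx, Set.indicator_of_mem]
        · unfold dens
          rw [e3, ← ENNReal.ofReal_mul (by positivity), ← ENNReal.ofReal_mul (by positivity), mul_assoc]
          congr 2
          rw [show (-(1 / 2) : ℝ) = 3 / 2 + -2 by norm_num, Real.rpow_add hv, Real.rpow_neg hv.le]
          congr 1
          rw [one_div, inv_pow]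
          norm_cast
        · refine ⟨⟨?_, ?_⟩, ?_⟩
          · rw [e4]; exact hx.1
          · rw [e4]; exact hx.2
          · rw [e3]; exact hYv
      · rw [Set.indicator_of_notMem hx, Set.indicator_of_notMem, zero_mul]
        rintro ⟨⟨h1, h2⟩, -⟩
        rw [e4] at h1 h2
        exact hx ⟨h1, h2⟩
    rw [lintegral_congr e1, lintegral_indicator measurableSet_Ico, lintegral_mul_const' _ _ ENNReal.ofReal_ne_top,
      ← Finset.sum_mul]
    exact mul_le_mul_left (bessel hf S hv) _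
  · rw [Set.indicator_of_notMem (show v ∉ Ici Y from hYv)]
    exact zero_le

/-- the `y`-integral as a real number -/
def Jr (n : ℕ) (Y : ℝ) : ℝ := ∫ v in Ioi Y, Real.exp (-(4 * Real.pi * n * v)) * v ^ (-(1 / 2) : ℝ)

lemma Jint {n : ℕ} (hn : 0 < n) :
    IntegrableOn (fun v : ℝ => Real.exp (-(4 * Real.pi * n * v)) * v ^ (-(1 / 2) : ℝ)) (Ioi 0) := by
  have hn0 : (0:ℝ) < n := by exact_mod_cast hn
  have hpi := Real.pi_pos
  have h2 := integrableOn_rpow_mul_exp_neg_mul_rpow (s := (-(1 / 2) : ℝ)) (p := 1) (b := 4 * Real.pi * n)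
      (by norm_num) one_pos (by positivity)
  refine h2.congr_fun (fun v _ => ?_) measurableSet_Ioi
  simp only [Real.rpow_one]
  rw [mul_comm, neg_mul]

lemma Jn_eq {n : ℕ} (hn : 0 < n) {Y : ℝ} (hY : 0 < Y) : Jn n Y = ENNReal.ofReal (Jr n Y) := by
  unfold Jr
  rw [ofReal_integral_eq_lintegral_ofReal ((Jint hn).mono_set (Set.Ioi_subset_Ioi hY.le))]
  · unfold Jn
    rw [← restrict_Ioi_eq_restrict_Ici]
  · filter_upwards [ae_restrict_mem measurableSet_Ioi] with v hv
    have : 0 < v := lt_trans hY hv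
    positivity

lemma Jr_ge {n : ℕ} (hn : 0 < n) {Y : ℝ} (hY : 0 < Y) :
    (1 / 2 - 2 * √(n * Y)) / √n ≤ Jr n Y := by
  have hn0 : (0:ℝ) < n := by exact_mod_cast hn
  have hpi := Real.pi_pos
  have hI := Jint hn
  have hG := Real.integral_rpow_mul_exp_neg_mul_Ioi (a := 1 / 2) (r := 4 * Real.pi * n) (by norm_num) (by positivity)
  rw [Real.Gamma_one_half_eq] at hG
  have hval : (1 / (4 * Real.pi * n)) ^ (1 / 2 : ℝ) * √Real.pi = 1 / (2 * √n) := by
    rw [← Real.sqrt_eq_rpow, ← Real.sqrt_mul (by positivity)]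
    rw [show (1 / (4 * Real.pi * n) * Real.pi : ℝ) = 1 / (2 ^ 2 * n) by field_simp; norm_num]
    rw [Real.sqrt_div zero_le_one, Real.sqrt_one, Real.sqrt_mul (by positivity), Real.sqrt_sq (by norm_num)]
  rw [hval] at hG
  have hG' : ∫ v in Ioi (0:ℝ), Real.exp (-(4 * Real.pi * n * v)) * v ^ (-(1 / 2) : ℝ) = 1 / (2 * √n) := by
    rw [← hG]
    refine setIntegral_congr_fun measurableSet_Ioi fun v _ => ?_
    beta_reduce
    rw [mul_comm, show (1 / 2 - 1 : ℝ) = -(1 / 2) by norm_num]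
  have hsplit : (∫ v in Ioi (0:ℝ), Real.exp (-(4 * Real.pi * n * v)) * v ^ (-(1 / 2) : ℝ)) =
      (∫ v in Ioc 0 Y, Real.exp (-(4 * Real.pi * n * v)) * v ^ (-(1 / 2) : ℝ)) + Jr n Y := by
    unfold Jr
    rw [← setIntegral_union (Set.Ioc_disjoint_Ioi le_rfl) measurableSet_Ioi
      (hI.mono_set Set.Ioc_subset_Ioi_self) (hI.mono_set (Set.Ioi_subset_Ioi hY.le)), Set.Ioc_union_Ioi_eq_Ioi hY.le]
  have hsmall : (∫ v in Ioc 0 Y, Real.exp (-(4 * Real.pi * n * v)) * v ^ (-(1 / 2) : ℝ)) ≤ 2 * √Y := by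
    have h1 : (∫ v in Ioc 0 Y, Real.exp (-(4 * Real.pi * n * v)) * v ^ (-(1 / 2) : ℝ)) ≤
        ∫ v in Ioc 0 Y, v ^ (-(1 / 2) : ℝ) := by
      refine setIntegral_mono_on (hI.mono_set Set.Ioc_subset_Ioi_self) ?_ measurableSet_Ioc ?_
      · exact (intervalIntegral.intervalIntegrable_rpow' (by norm_num : (-1:ℝ) < -(1 / 2))).1
      · intro v hv
        have hv0 : 0 < v := hv.1
        refine mul_le_of_le_one_left (by positivity) ?_
        rw [Real.exp_le_one_iff]
        have : 0 ≤ 4 * Real.pi * n * v := by positivity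
        linarith
    refine h1.trans (le_of_eq ?_)
    rw [← intervalIntegral.integral_of_le hY.le, integral_rpow (Or.inl (by norm_num))]
    rw [Real.sqrt_eq_rpow]
    norm_num
    ring
  have hfin : 1 / (2 * √n) - 2 * √Y ≤ Jr n Y := by
    linarith
  refine le_trans (le_of_eq ?_) hfin
  rw [Real.sqrt_mul hn0.le]
  have : 0 < √(n:ℝ) := Real.sqrt_pos.2 hn0
  field_simp

lemma Jr_pos {n : ℕ} (hn : 0 < n) {Y : ℝ} (hY : 0 < Y) : 0 < Jr n Y := by
  unfold Jr
  rw [setIntegral_pos_iff_support_of_nonneg_ae]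
  · have : Ioi Y ⊆ Function.support (fun v : ℝ => Real.exp (-(4 * Real.pi * n * v)) * v ^ (-(1 / 2) : ℝ)) ∩ Ioi Y := by
      intro v hv
      refine ⟨?_, hv⟩
      have h0 : 0 < v := lt_trans hY hv
      rw [Function.mem_support]
      positivity
    exact lt_of_lt_of_le (by simp) (measure_mono this)
  · filter_upwards [ae_restrict_mem measurableSet_Ioi] with v hv
    have : 0 < v := lt_trans hY hv
    positivity
  · exact (Jint hn).mono_set (Set.Ioi_subset_Ioi hY.le)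

end

end Pool.Agent.Helper78.LS
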